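import Pool.Agent.N935.Kik.Low

set_option autoImplicit false
set_option linter.unusedSectionVars false

/-!
# Asymptotics for `r = 2 k`
-/

namespace Pool.Agent.N935.Kik

open MeasureTheory ProbabilityTheory Finset
open Pool.Agent.H320R2.LD
open scoped ENNReal

lemma exists_exponent (x : ℝ) (hx : 2 ≤ x) : ∃ s : ℕ, ((2 ^ (s + 1) : ℕ) : ℝ) ≤ x ∧ x / 2 ≤ ((2 ^ (s + 1) : ℕ) : ℝ) := by
  set t := Nat.log 2 ⌊x⌋₊ with ht
  have hf : 2 ≤ ⌊x⌋₊ := Nat.le_floor (by exact_mod_cast hx)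
  have ht1 : 1 ≤ t := by
    rw [ht]
    exact Nat.log_pos (by norm_num) hf
  refine ⟨t - 1, ?_, ?_⟩
  · rw [Nat.sub_add_cancel ht1]
    have h1 : 2 ^ t ≤ ⌊x⌋₊ := Nat.pow_log_le_self 2 (by omega)
    calc ((2 ^ t : ℕ) : ℝ) ≤ (⌊x⌋₊ : ℝ) := by exact_mod_cast h1
      _ ≤ x := Nat.floor_le (by linarith)
  · rw [Nat.sub_add_cancel ht1]
    have h1 : ⌊x⌋₊ < 2 ^ (t + 1) := Nat.lt_pow_succ_log_self (by norm_num) _
    have h2 : x < (⌊x⌋₊ : ℝ) + 1 := Nat.lt_floor_add_one x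
    have h3 : (⌊x⌋₊ : ℝ) + 1 ≤ ((2 ^ (t + 1) : ℕ) : ℝ) := by exact_mod_cast h1
    have h4 : ((2 ^ (t + 1) : ℕ) : ℝ) = 2 * ((2 ^ t : ℕ) : ℝ) := by
      push_cast; ring
    rw [h4] at h3
    linarith

/-- Upper bound for the mean noise eigenvalue. -/
lemma mean_noise_le (k ℓ : ℕ) (hk : 1 ≤ k) (hℓ : k ≤ ℓ) :
    ∀ᶠ n : ℕ in Filter.atTop, ∫ Z, X n ℓ (2 * k) Z ∂(gam (Finset (Fin n))) ≤
      4 * Real.exp 8 * (Real.sqrt ((ℓ.choose k : ℝ) * (2 * n) ^ k) * Real.sqrt ((ℓ:ℝ) / k)) := by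
  have hk0 : (0:ℝ) < k := by exact_mod_cast hk
  have hℓ0 : (0:ℝ) < ℓ := by exact_mod_cast (lt_of_lt_of_le hk hℓ)
  have hlog : ∀ᶠ n : ℕ in Filter.atTop, (k:ℝ) * ℓ / 2 * Real.log n ≤ Real.sqrt n := by
    have h := (isLittleO_log_rpow_atTop (show (0:ℝ) < 1 / 2 by norm_num)).bound
      (show (0:ℝ) < 1 / ((k:ℝ) * ℓ / 2) by positivity)
    have h2 := tendsto_natCast_atTop_atTop (R := ℝ) |>.eventually h
    filter_upwards [h2, Filter.eventually_ge_atTop 1] with n hn hn1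
    have hn1' : (1:ℝ) ≤ n := by exact_mod_cast hn1
    rw [Real.norm_of_nonneg (Real.log_nonneg hn1'), Real.norm_of_nonneg (by positivity)] at hn
    rw [Real.sqrt_eq_rpow]
    have h3 := mul_le_mul_of_nonneg_left hn (show (0:ℝ) ≤ (k:ℝ) * ℓ / 2 by positivity)
    refine h3.trans (le_of_eq ?_)
    field_simp
  have hlog2 : ∀ᶠ n : ℕ in Filter.atTop, 2 ≤ (ℓ:ℝ) / 4 * Real.log n := by
    have h1 : Filter.Tendsto (fun n : ℕ => (ℓ:ℝ) / 4 * Real.log n) Filter.atTop Filter.atTop :=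
      (Real.tendsto_log_atTop.comp (tendsto_natCast_atTop_atTop (R := ℝ))).const_mul_atTop
        (by positivity)
    exact h1.eventually_ge_atTop 2
  filter_upwards [hlog, hlog2, Filter.eventually_ge_atTop (max ℓ 1)] with n hn1 hn2 hn3
  have hnℓ : ℓ ≤ n := le_trans (le_max_left _ _) hn3
  have hn0 : (0:ℝ) < n := by exact_mod_cast (lt_of_lt_of_le Nat.one_pos (le_trans (le_max_right _ _) hn3))
  obtain ⟨s, hs1, hs2⟩ := exists_exponent _ hn2
  set P : ℕ := 2 ^ (s + 1) with hP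
  set A : ℝ := Real.sqrt ((ℓ.choose k : ℝ) * (2 * n) ^ k) with hAdef
  set Bb : ℝ := Real.sqrt ((ℓ:ℝ) / k) with hBdef
  have hch : (0:ℝ) < ℓ.choose k := by exact_mod_cast Nat.choose_pos hℓ
  have hA0 : 0 < A := Real.sqrt_pos.mpr (by positivity)
  have hB0 : 0 < Bb := Real.sqrt_pos.mpr (by positivity)
  have hA2 : A ^ 2 = (ℓ.choose k : ℝ) * (2 * n) ^ k := Real.sq_sqrt (by positivity)
  have hB2 : Bb ^ 2 = (ℓ:ℝ) / k := Real.sq_sqrt (by positivity)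
  have hy : Real.exp (2 * P / ℓ) ≤ Real.sqrt n := by
    have e : Real.sqrt n = Real.exp (Real.log n / 2) := by
      rw [Real.sqrt_eq_rpow, Real.rpow_def_of_pos hn0]; congr 1; ring
    rw [e]
    apply Real.exp_le_exp.mpr
    rw [div_le_iff₀ hℓ0]
    linarith
  have hAle : (ℓ.choose k : ℝ) * (n + 2 * k * P * Real.sqrt n) ^ k ≤ A ^ 2 := by
    rw [hA2]
    apply mul_le_mul_of_nonneg_left _ hch.le
    apply pow_le_pow_left₀ (by positivity)
    have h1 : 2 * k * P ≤ Real.sqrt n := by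
      calc 2 * (k:ℝ) * P ≤ 2 * k * ((ℓ:ℝ) / 4 * Real.log n) :=
            mul_le_mul_of_nonneg_left hs1 (by positivity)
        _ = (k:ℝ) * ℓ / 2 * Real.log n := by ring
        _ ≤ _ := hn1
    have h2 : 2 * k * P * Real.sqrt n ≤ Real.sqrt n * Real.sqrt n :=
      mul_le_mul_of_nonneg_right h1 (Real.sqrt_nonneg _)
    rw [Real.mul_self_sqrt hn0.le] at h2
    linarith
  have htr := mean_trace_le (n := n) (ℓ := ℓ) k hk (le_trans hk hℓ) P (Real.sqrt n) A Bb hy hA0 hB0 hAle hB2.ge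
  set B0 : ℝ := Real.exp 8 * (2 * A * Bb) with hB0def
  have hB0pos : 0 < B0 := by positivity
  have hX := mean_X_le (n := n) (ℓ := ℓ) (2 * k) s hnℓ B0 hB0pos
  have hN : (Fintype.card (SI n ℓ) : ℝ) ≤ Real.exp (8 * P) := by
    have h1 : Fintype.card (SI n ℓ) = n.choose ℓ := by
      rw [Fintype.card_finset_len, Fintype.card_fin]
    rw [h1]
    calc ((n.choose ℓ : ℕ) : ℝ) ≤ (n:ℝ) ^ ℓ := by exact_mod_cast Nat.choose_le_pow n ℓ
      _ = Real.exp (ℓ * Real.log n) := by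
        rw [Real.exp_nat_mul, Real.exp_log hn0]
      _ ≤ _ := by
        apply Real.exp_le_exp.mpr
        linarith
  have hquot : (∫ Z, Matrix.trace ((KM n ℓ (2 * k) Z) ^ P) ∂(gam (Finset (Fin n)))) / B0 ^ P ≤ 1 := by
    rw [div_le_one (by positivity)]
    refine htr.trans ?_
    rw [hB0def, mul_pow (Real.exp 8) (2 * A * Bb) P]
    apply mul_le_mul_of_nonneg_right _ (by positivity)
    rw [← Real.exp_nat_mul]
    refine hN.trans (Real.exp_le_exp.mpr (by linarith))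
  have h5 := mul_le_mul_of_nonneg_left hquot hB0pos.le
  calc _ ≤ _ := hX
    _ ≤ B0 + B0 * 1 := by linarith
    _ = _ := by rw [hB0def]; ring

/-- Lower bound for the mean eigenvalue with signal `μ n^(-k/2)`. -/
lemma mean_signal_ge (k ℓ : ℕ) (μ : ℝ) (hμ : 0 ≤ μ) :
    ∀ᶠ n : ℕ in Filter.atTop,
      μ * ((ℓ.choose k : ℝ) / (2 ^ k * k.factorial)) * Real.sqrt ((n:ℝ) ^ k) ≤
      ∫ Z, X n ℓ (2 * k) (fun S => μ * (n:ℝ) ^ (-((2 * k : ℕ):ℝ) / 4) + Z S) ∂(gam (Finset (Fin n))) := by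
  filter_upwards [Filter.eventually_ge_atTop (2 * (ℓ + k) + 1)] with n hn
  have hn0 : (0:ℝ) < n := by exact_mod_cast (by omega : 0 < n)
  have h1 := mean_X_ge (n := n) (ℓ := ℓ) k (by omega) (μ * (n:ℝ) ^ (-((2 * k : ℕ):ℝ) / 4)) (by positivity)
  refine le_trans ?_ h1
  have h2 : ((n:ℝ) / 2) ^ k ≤ k.factorial * ((n - ℓ).choose k : ℝ) := by
    have h3 : (((n - ℓ + 1 - k : ℕ) ^ k : ℕ) : ℝ) ≤ k.factorial * ((n - ℓ).choose k : ℝ) := by
      have := Nat.pow_le_choose (α := ℝ) k (n - ℓ)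
      push_cast at this ⊢
      rw [div_le_iff₀ (by positivity)] at this
      linarith
    refine le_trans ?_ h3
    push_cast
    apply pow_le_pow_left₀ (by positivity)
    have h4 : n ≤ 2 * (n - ℓ + 1 - k) := by omega
    have h5 : (n:ℝ) ≤ 2 * ((n - ℓ + 1 - k : ℕ) : ℝ) := by exact_mod_cast h4
    linarith
  have e1 : (n:ℝ) ^ (-((2 * k : ℕ):ℝ) / 4) * (n:ℝ) ^ k = Real.sqrt ((n:ℝ) ^ k) := by
    rw [Real.sqrt_eq_rpow, ← Real.rpow_natCast, ← Real.rpow_add hn0, ← Real.rpow_mul hn0.le]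
    congr 1
    push_cast
    ring
  have hfac : (0:ℝ) < k.factorial := by exact_mod_cast Nat.factorial_pos k
  calc μ * ((ℓ.choose k : ℝ) / (2 ^ k * k.factorial)) * Real.sqrt ((n:ℝ) ^ k)
      = (μ * (n:ℝ) ^ (-((2 * k : ℕ):ℝ) / 4) * (ℓ.choose k : ℝ)) * (((n:ℝ) / 2) ^ k / k.factorial) := by
        rw [← e1, div_pow]
        field_simp
    _ ≤ (μ * (n:ℝ) ^ (-((2 * k : ℕ):ℝ) / 4) * (ℓ.choose k : ℝ)) * ((n - ℓ).choose k : ℝ) := by
        apply mul_le_mul_of_nonneg_left _ (by positivity)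
        rw [div_le_iff₀ hfac]; linarith
    _ = _ := by push_cast; ring

/-- The constant. -/
noncomputable def Ck (k : ℕ) : ℝ := 8 * Real.exp 8 * 4 ^ k * k.factorial * k ^ k

lemma Ck_pos (k : ℕ) (hk : 1 ≤ k) : 0 < Ck k := by
  have : (0:ℝ) < k := by exact_mod_cast hk
  unfold Ck
  have : (0:ℝ) < k.factorial := by exact_mod_cast Nat.factorial_pos k
  positivity

lemma choose_ge (k ℓ : ℕ) (hk : 1 ≤ k) (hℓ : k ≤ ℓ) : ((ℓ:ℝ) / k) ^ k ≤ ℓ.choose k := by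
  induction k, hk using Nat.le_induction generalizing ℓ with
  | base => simp
  | succ k hk ih =>
    obtain ⟨m, rfl⟩ : ∃ m, ℓ = m + 1 := ⟨ℓ - 1, by omega⟩
    have hkm : k ≤ m := by omega
    have h1 := ih m hkm
    have hk0 : (0:ℝ) < k := by exact_mod_cast hk
    have hkm' : (k:ℝ) ≤ m := by exact_mod_cast hkm
    have h2 : ((m + 1).choose (k + 1) : ℝ) = ((m:ℝ) + 1) / (k + 1) * m.choose k := by
      have := Nat.add_one_mul_choose_eq m k
      have h3 : ((m:ℝ) + 1) * m.choose k = (m + 1).choose (k + 1) * (k + 1) := by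
        exact_mod_cast this
      field_simp
      linarith
    rw [h2, pow_succ']
    push_cast
    apply mul_le_mul_of_nonneg_left _ (by positivity)
    refine le_trans ?_ h1
    apply pow_le_pow_left₀ (by positivity)
    rw [div_le_div_iff₀ (by positivity) hk0]
    nlinarith

/-- Final comparison for `r = 2 k`. -/
theorem gap (k : ℕ) (hk : 1 ≤ k) (ℓ : ℕ) (hℓ : k ≤ ℓ) (μ : ℝ)
    (hμ : Ck k * (ℓ:ℝ) ^ (-(((k:ℝ) - 1) / 2)) ≤ μ) :
    ∀ᶠ n : ℕ in Filter.atTop,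
      2 ≤ (∫ Z, X n ℓ (2 * k) (fun S => μ * (n:ℝ) ^ (-((2 * k : ℕ):ℝ) / 4) + Z S) ∂(gam (Finset (Fin n)))) /
        (∫ Z, X n ℓ (2 * k) Z ∂(gam (Finset (Fin n)))) := by
  have hk0 : (0:ℝ) < k := by exact_mod_cast hk
  have hℓ0 : (0:ℝ) < ℓ := by exact_mod_cast (lt_of_lt_of_le hk hℓ)
  have hμ0 : 0 ≤ μ := le_trans (by have := Ck_pos k hk; positivity) hμ
  have hch : (0:ℝ) < ℓ.choose k := by exact_mod_cast Nat.choose_pos hℓ
  have hfac : (0:ℝ) < k.factorial := by exact_mod_cast Nat.factorial_pos k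
  filter_upwards [mean_noise_le k ℓ hk hℓ, mean_signal_ge k ℓ μ hμ0,
    Filter.eventually_ge_atTop (ℓ + k)] with n h1 h2 h3
  have hpos := mean_X_pos (n := n) (ℓ := ℓ) k hk hℓ h3
  rw [le_div_iff₀ hpos]
  refine le_trans ?_ h2
  refine le_trans (mul_le_mul_of_nonneg_left h1 (by norm_num)) ?_
  -- now a deterministic inequality
  have e1 : Real.sqrt ((ℓ.choose k : ℝ) * (2 * n) ^ k) =
      Real.sqrt (ℓ.choose k : ℝ) * (Real.sqrt (2 ^ k) * Real.sqrt ((n:ℝ) ^ k)) := by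
    rw [mul_pow, Real.sqrt_mul hch.le, Real.sqrt_mul (by positivity)]
  rw [e1]
  set R := Real.sqrt ((n:ℝ) ^ k) with hR
  have hR0 : 0 ≤ R := Real.sqrt_nonneg _
  have key : 8 * Real.exp 8 * (Real.sqrt (ℓ.choose k : ℝ) * Real.sqrt (2 ^ k) * Real.sqrt ((ℓ:ℝ) / k)) ≤
      μ * ((ℓ.choose k : ℝ) / (2 ^ k * k.factorial)) := by
    -- sqrt(ℓ/k) ≤ (ℓ/k)^{-(k-1)/2} sqrt(choose)
    set x : ℝ := (ℓ:ℝ) / k with hx
    have hx0 : 0 < x := by positivity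
    have hx1 : x ^ k ≤ ℓ.choose k := choose_ge k ℓ hk hℓ
    have h4 : Real.sqrt x ≤ x ^ (-(((k:ℝ) - 1) / 2)) * Real.sqrt (ℓ.choose k : ℝ) := by
      have h5 : Real.sqrt (x ^ k) ≤ Real.sqrt (ℓ.choose k : ℝ) := Real.sqrt_le_sqrt hx1
      have h6 : Real.sqrt x = x ^ (-(((k:ℝ) - 1) / 2)) * Real.sqrt (x ^ k) := by
        rw [Real.sqrt_eq_rpow, Real.sqrt_eq_rpow, ← Real.rpow_natCast, ← Real.rpow_mul hx0.le,
          ← Real.rpow_add hx0]
        congr 1; ring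
      rw [h6]
      exact mul_le_mul_of_nonneg_left h5 (by positivity)
    have h7 : x ^ (-(((k:ℝ) - 1) / 2)) = (ℓ:ℝ) ^ (-(((k:ℝ) - 1) / 2)) * (k:ℝ) ^ (((k:ℝ) - 1) / 2) := by
      rw [hx, Real.div_rpow hℓ0.le hk0.le, Real.rpow_neg hk0.le (((k:ℝ) - 1) / 2), div_inv_eq_mul]
    have hk1 : (1:ℝ) ≤ k := by exact_mod_cast hk
    have h8 : (k:ℝ) ^ (((k:ℝ) - 1) / 2) ≤ (k:ℝ) ^ k := by
      rw [← Real.rpow_natCast (k:ℝ) k]
      apply Real.rpow_le_rpow_of_exponent_le hk1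
      linarith
    have h9 : Real.sqrt (2 ^ k) ≤ 2 ^ k := by
      rw [Real.sqrt_le_left (by positivity)]
      have : (1:ℝ) ≤ 2 ^ k := one_le_pow₀ (by norm_num)
      nlinarith
    set c := Real.sqrt (ℓ.choose k : ℝ) with hc
    have hc0 : 0 ≤ c := Real.sqrt_nonneg _
    have hcc : c * c = ℓ.choose k := Real.mul_self_sqrt hch.le
    set z : ℝ := (ℓ:ℝ) ^ (-(((k:ℝ) - 1) / 2)) with hz
    have hz0 : 0 ≤ z := by positivity
    calc 8 * Real.exp 8 * (c * Real.sqrt (2 ^ k) * Real.sqrt x)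
        ≤ 8 * Real.exp 8 * (c * 2 ^ k * (z * (k:ℝ) ^ k * c)) := by
          apply mul_le_mul_of_nonneg_left _ (by positivity)
          apply mul_le_mul (mul_le_mul_of_nonneg_left h9 hc0) _ (Real.sqrt_nonneg _) (by positivity)
          refine h4.trans ?_
          rw [h7]
          apply mul_le_mul_of_nonneg_right _ hc0
          exact mul_le_mul_of_nonneg_left h8 hz0
      _ = (Ck k * z) * ((ℓ.choose k : ℝ) / (2 ^ k * k.factorial)) := by
          unfold Ck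
          rw [← hcc]
          have e4 : (4:ℝ) ^ k = 2 ^ k * 2 ^ k := by rw [← mul_pow]; norm_num
          rw [e4]
          field_simp
      _ ≤ _ := mul_le_mul_of_nonneg_right hμ (by positivity)
  calc _ = 8 * Real.exp 8 * (Real.sqrt (ℓ.choose k : ℝ) * Real.sqrt (2 ^ k) * Real.sqrt ((ℓ:ℝ) / k)) * R := by
        ring
    _ ≤ _ := mul_le_mul_of_nonneg_right key hR0

end Pool.Agent.N935.Kik
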