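import Pool.Agent.N935.Kik.Rec

set_option autoImplicit false
set_option linter.unusedSectionVars false

/-!
# The moment bound
-/

namespace Pool.Agent.N935.Kik

open MeasureTheory ProbabilityTheory Finset
open Pool.Agent.H320R2.LD
open scoped ENNReal

variable {n ℓ : ℕ}

/-- Main moment estimate. -/
lemma T_bound (k : ℕ) (hk : 1 ≤ k) (hℓ : 1 ≤ ℓ) (w : SI n ℓ → ℝ) (hw0 : ∀ I, 0 ≤ w I) (hw1 : ∀ I, w I ≤ 1)
    (P : ℕ) (y A Bb : ℝ) (hy : Real.exp (2 * P / ℓ) ≤ y) (hA0 : 0 < A) (hB0 : 0 < Bb)
    (hA : (ℓ.choose k : ℝ) * (n + 2 * k * P * y) ^ k ≤ A ^ 2) (hB : (ℓ:ℝ) / k ≤ Bb ^ 2) :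
    ∀ m ≤ P, ∀ (I : SI n ℓ) (o : Finset (Fin n) → ℕ), (∀ S, o S ≠ 0 → S.card = 2 * k) →
      (m < qq o → T (2 * k) w m I o = 0) ∧
      (qq o ≤ m → T (2 * k) w m I o ≤
        2 ^ m * A ^ (m - qq o) * Bb ^ (m + qq o) * Real.exp (m * ex I o / ℓ)) := by
  have hℓ0 : (0:ℝ) < ℓ := by exact_mod_cast hℓ
  have hk0 : (0:ℝ) < k := by exact_mod_cast hk
  have hy0 : 0 < y := lt_of_lt_of_le (Real.exp_pos _) hy
  intro m
  induction m with
  | zero =>
    intro _ I o ho
    rw [T_zero]
    constructor
    · intro h
      rw [if_neg]
      intro h0
      have : qq o = 0 := Finset.sum_eq_zero fun S _ => h0 S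
      omega
    · intro h
      have h0 : qq o = 0 := by omega
      rw [h0]
      simp only [pow_zero, Nat.sub_zero, Nat.add_zero, Nat.cast_zero, zero_mul, zero_div,
        Real.exp_zero, mul_one]
      split_ifs
      · exact hw1 I
      · norm_num
  | succ m ih =>
    intro hmP I o ho
    have ih' := ih (by omega)
    -- validity of the support condition along the recursion
    have hup : ∀ J : SI n ℓ, (symmDiff I.1 J.1).card = 2 * k → ∀ S,
        Function.update o (symmDiff I.1 J.1) (o (symmDiff I.1 J.1) + 1) S ≠ 0 → S.card = 2 * k := by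
      intro J hJ S hS
      by_cases h : S = symmDiff I.1 J.1
      · rw [h]; exact hJ
      · rw [Function.update_of_ne h] at hS; exact ho S hS
    have hdn : ∀ J : SI n ℓ, (symmDiff I.1 J.1).card = 2 * k → ∀ S,
        Function.update o (symmDiff I.1 J.1) (o (symmDiff I.1 J.1) - 1) S ≠ 0 → S.card = 2 * k := by
      intro J hJ S hS
      by_cases h : S = symmDiff I.1 J.1
      · rw [h]; exact hJ
      · rw [Function.update_of_ne h] at hS; exact ho S hS
    rw [T_succ]
    constructor
    · intro hq
      refine Finset.sum_eq_zero fun J _ => ?_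
      split_ifs with hJ
      · rw [(ih' J _ (hup J hJ)).1 (by rw [qq_up]; omega), zero_add]
        by_cases h0 : o (symmDiff I.1 J.1) = 0
        · rw [h0]; simp
        · rw [(ih' J _ (hdn J hJ)).1 (by have := qq_down o _ h0; omega), mul_zero]
      · rfl
    · intro hq
      -- opening part
      have hopen : (∑ J : SI n ℓ, if (symmDiff I.1 J.1).card = 2 * k then
          T (2 * k) w m J (Function.update o (symmDiff I.1 J.1) (o (symmDiff I.1 J.1) + 1)) else 0) ≤
          2 ^ m * A ^ (m + 1 - qq o) * Bb ^ (m + 1 + qq o) * Real.exp ((m + 1 : ℕ) * ex I o / ℓ) := by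
        by_cases hq1 : m < qq o + 1
        · rw [Finset.sum_eq_zero fun J _ => ?_]
          · positivity
          · split_ifs with hJ
            · exact (ih' J _ (hup J hJ)).1 (by rw [qq_up]; exact hq1)
            · rfl
        · push Not at hq1
          have hterm : ∀ J : SI n ℓ, (if (symmDiff I.1 J.1).card = 2 * k then
              T (2 * k) w m J (Function.update o (symmDiff I.1 J.1) (o (symmDiff I.1 J.1) + 1)) else 0) ≤
              (2 ^ m * A ^ (m - (qq o + 1)) * Bb ^ (m + (qq o + 1)) * Real.exp (m * ex I o / ℓ)) *
              (if (symmDiff I.1 J.1).card = 2 * k then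
                y ^ ((J.1 \ I.1).filter (fun x => 1 ≤ mm o x)).card else 0) := by
            intro J
            split_ifs with hJ
            · have h1 := (ih' J _ (hup J hJ)).2 (by rw [qq_up]; exact hq1)
              rw [qq_up] at h1
              refine h1.trans ?_
              rw [mul_assoc (2 ^ m * A ^ (m - (qq o + 1)) * Bb ^ (m + (qq o + 1)))]
              apply mul_le_mul_of_nonneg_left _ (by positivity)
              set j := ((J.1 \ I.1).filter (fun x => 1 ≤ mm o x)).card with hj
              have h2 := ex_up I J o
              rw [← hj] at h2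
              have h3 : ((ex J (Function.update o (symmDiff I.1 J.1) (o (symmDiff I.1 J.1) + 1)) : ℕ) : ℝ) ≤
                  ex I o + 2 * j := by exact_mod_cast h2
              have hmP' : (m:ℝ) ≤ P := by
                have : m ≤ P := by omega
                exact_mod_cast this
              calc Real.exp (m * (ex J (Function.update o (symmDiff I.1 J.1)
                    (o (symmDiff I.1 J.1) + 1)) : ℕ) / ℓ)
                  ≤ Real.exp (m * ex I o / ℓ + j * (2 * P / ℓ)) := by
                    apply Real.exp_le_exp.mpr
                    have e1 : (m:ℝ) * ex I o / ℓ + j * (2 * P / ℓ) =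
                        (m * ex I o + P * (2 * j)) / ℓ := by ring
                    rw [e1]
                    apply div_le_div_of_nonneg_right _ hℓ0.le
                    have hm0 : (0:ℝ) ≤ m := Nat.cast_nonneg m
                    have hj0 : (0:ℝ) ≤ 2 * j := by positivity
                    nlinarith [mul_le_mul_of_nonneg_left h3 hm0, mul_le_mul_of_nonneg_right hmP' hj0]
                _ = Real.exp (m * ex I o / ℓ) * (Real.exp (2 * P / ℓ)) ^ j := by
                    rw [Real.exp_add, ← Real.exp_nat_mul]
                _ ≤ Real.exp (m * ex I o / ℓ) * y ^ j := by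
                    apply mul_le_mul_of_nonneg_left _ (Real.exp_pos _).le
                    exact pow_le_pow_left₀ (Real.exp_pos _).le hy j
            · simp
          refine (Finset.sum_le_sum fun J _ => hterm J).trans ?_
          rw [← Finset.mul_sum]
          have hcount := opening k I (fun x => 1 ≤ mm o x) y hy0.le
          have hsw := sum_w_le k o ho y hy0.le
          have hqP : (qq o : ℝ) ≤ P := by
            have : qq o ≤ P := by omega
            exact_mod_cast this
          have hc2 : (∑ J : SI n ℓ, if (symmDiff I.1 J.1).card = 2 * k then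
                y ^ ((J.1 \ I.1).filter (fun x => 1 ≤ mm o x)).card else 0) ≤ A ^ 2 := by
            refine hcount.trans (le_trans ?_ hA)
            apply mul_le_mul_of_nonneg_left _ (by positivity)
            apply pow_le_pow_left₀
            · exact Finset.sum_nonneg fun x _ => by split_ifs <;> linarith
            · refine hsw.trans ?_
              have h2k : (0:ℝ) ≤ 2 * k := by positivity
              have := mul_le_mul_of_nonneg_left hqP h2k
              have := mul_le_mul_of_nonneg_right this hy0.le
              linarith
          calc _ ≤ (2 ^ m * A ^ (m - (qq o + 1)) * Bb ^ (m + (qq o + 1)) * Real.exp (m * ex I o / ℓ)) * A ^ 2 :=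
                mul_le_mul_of_nonneg_left hc2 (by positivity)
            _ = 2 ^ m * A ^ (m + 1 - qq o) * Bb ^ (m + 1 + qq o) * Real.exp (m * ex I o / ℓ) := by
                have e1 : m + 1 - qq o = (m - (qq o + 1)) + 2 := by omega
                have e2 : m + 1 + qq o = m + (qq o + 1) := by omega
                rw [e1, e2, pow_add]; ring
            _ ≤ _ := by
                apply mul_le_mul_of_nonneg_left _ (by positivity)
                apply Real.exp_le_exp.mpr
                apply div_le_div_of_nonneg_right _ hℓ0.le
                apply mul_le_mul_of_nonneg_right _ (Nat.cast_nonneg _)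
                push_cast; linarith
      -- closing part
      have hclose : (∑ J : SI n ℓ, if (symmDiff I.1 J.1).card = 2 * k then
          (o (symmDiff I.1 J.1) : ℝ) *
            T (2 * k) w m J (Function.update o (symmDiff I.1 J.1) (o (symmDiff I.1 J.1) - 1)) else 0) ≤
          2 ^ m * A ^ (m + 1 - qq o) * Bb ^ (m + 1 + qq o) * Real.exp ((m + 1 : ℕ) * ex I o / ℓ) := by
        rcases Nat.eq_zero_or_pos (qq o) with hq0 | hq0
        · have ho0 : ∀ S, o S = 0 := by
            intro S
            have h1 : o S ≤ qq o := Finset.single_le_sum (f := o) (fun _ _ => Nat.zero_le _) (Finset.mem_univ S)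
            omega
          rw [Finset.sum_eq_zero fun J _ => ?_]
          · positivity
          · rw [ho0]; simp
        · have hterm : ∀ J : SI n ℓ, (if (symmDiff I.1 J.1).card = 2 * k then
              (o (symmDiff I.1 J.1) : ℝ) *
              T (2 * k) w m J (Function.update o (symmDiff I.1 J.1) (o (symmDiff I.1 J.1) - 1)) else 0) ≤
              (2 ^ m * A ^ (m - (qq o - 1)) * Bb ^ (m + (qq o - 1)) * Real.exp (m * ex I o / ℓ)) *
              ((if (symmDiff I.1 J.1).card = 2 * k then o (symmDiff I.1 J.1) else 0 : ℕ) : ℝ) := by
            intro J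
            split_ifs with hJ
            · by_cases h0 : o (symmDiff I.1 J.1) = 0
              · rw [h0]; simp
              · have hqd := qq_down o _ h0
                have hqd' : qq (Function.update o (symmDiff I.1 J.1) (o (symmDiff I.1 J.1) - 1)) =
                    qq o - 1 := by omega
                have h1 := (ih' J _ (hdn J hJ)).2 (by omega)
                rw [hqd'] at h1
                rw [mul_comm]
                apply mul_le_mul_of_nonneg_right _ (Nat.cast_nonneg _)
                refine h1.trans ?_
                apply mul_le_mul_of_nonneg_left _ (by positivity)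
                apply Real.exp_le_exp.mpr
                apply div_le_div_of_nonneg_right _ hℓ0.le
                apply mul_le_mul_of_nonneg_left _ (Nat.cast_nonneg _)
                exact_mod_cast ex_down I J o h0
            · simp
          refine (Finset.sum_le_sum fun J _ => hterm J).trans ?_
          rw [← Finset.mul_sum, ← Nat.cast_sum]
          have hus := usable k I o
          have hus2 : ((∑ J : SI n ℓ, (if (symmDiff I.1 J.1).card = 2 * k then o (symmDiff I.1 J.1) else 0) : ℕ) : ℝ) ≤
              Bb ^ 2 * Real.exp (ex I o / ℓ) := by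
            have h1 : (k:ℝ) * ((∑ J : SI n ℓ, (if (symmDiff I.1 J.1).card = 2 * k then o (symmDiff I.1 J.1) else 0) : ℕ) : ℝ) ≤
                ℓ + ex I o := by exact_mod_cast hus
            have h2 : ((∑ J : SI n ℓ, (if (symmDiff I.1 J.1).card = 2 * k then o (symmDiff I.1 J.1) else 0) : ℕ) : ℝ) ≤
                (ℓ / k) * (ex I o / ℓ + 1) := by
              have e1 : ((ℓ:ℝ) / k) * (ex I o / ℓ + 1) = (ℓ + ex I o) / k := by
                field_simp; ring
              rw [e1, le_div_iff₀ hk0]; linarith
            refine h2.trans ?_
            apply mul_le_mul hB (Real.add_one_le_exp _) (by positivity) (by positivity)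
          calc _ ≤ (2 ^ m * A ^ (m - (qq o - 1)) * Bb ^ (m + (qq o - 1)) * Real.exp (m * ex I o / ℓ)) *
                (Bb ^ 2 * Real.exp (ex I o / ℓ)) := mul_le_mul_of_nonneg_left hus2 (by positivity)
            _ = 2 ^ m * A ^ (m + 1 - qq o) * Bb ^ (m + 1 + qq o) *
                (Real.exp (m * ex I o / ℓ) * Real.exp (ex I o / ℓ)) := by
                have e1 : m + 1 - qq o = m - (qq o - 1) := by omega
                have e2 : m + 1 + qq o = (m + (qq o - 1)) + 2 := by omega
                rw [e1, e2, pow_add]; ring
            _ = _ := by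
                rw [← Real.exp_add]
                congr 2
                push_cast; ring
      have hsplit : (∑ J : SI n ℓ, if (symmDiff I.1 J.1).card = 2 * k then
          T (2 * k) w m J (Function.update o (symmDiff I.1 J.1) (o (symmDiff I.1 J.1) + 1)) +
          (o (symmDiff I.1 J.1) : ℝ) *
            T (2 * k) w m J (Function.update o (symmDiff I.1 J.1) (o (symmDiff I.1 J.1) - 1)) else 0) =
          (∑ J : SI n ℓ, if (symmDiff I.1 J.1).card = 2 * k then
          T (2 * k) w m J (Function.update o (symmDiff I.1 J.1) (o (symmDiff I.1 J.1) + 1)) else 0) +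
          (∑ J : SI n ℓ, if (symmDiff I.1 J.1).card = 2 * k then
          (o (symmDiff I.1 J.1) : ℝ) *
            T (2 * k) w m J (Function.update o (symmDiff I.1 J.1) (o (symmDiff I.1 J.1) - 1)) else 0) := by
        rw [← Finset.sum_add_distrib]
        refine Finset.sum_congr rfl fun J _ => ?_
        split_ifs <;> simp
      rw [hsplit]
      calc _ ≤ 2 ^ m * A ^ (m + 1 - qq o) * Bb ^ (m + 1 + qq o) * Real.exp ((m + 1 : ℕ) * ex I o / ℓ) +
            2 ^ m * A ^ (m + 1 - qq o) * Bb ^ (m + 1 + qq o) * Real.exp ((m + 1 : ℕ) * ex I o / ℓ) :=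
            add_le_add hopen hclose
        _ = _ := by rw [pow_succ (2:ℝ) m]; ring

end Pool.Agent.N935.Kik
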