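import Pool.Agent.N935.Kik.Gau

set_option autoImplicit false

/-!
# The Kikuchi quadratic form and its top eigenvalue
-/

namespace Pool.Agent.N935.Kik

open MeasureTheory ProbabilityTheory Finset
open Pool.Agent.H320R2.LD
open scoped ENNReal

lemma nrm_nonneg {V : Type} [Fintype V] (x : V → ℝ) : 0 ≤ nrm x := Real.sqrt_nonneg _

/-- `ℓ`-subsets of `[n]`. -/
abbrev SI (n ℓ : ℕ) := {K : Finset (Fin n) // K.card = ℓ}

/-- The quadratic form of the Kikuchi matrix with weights `W`. -/
noncomputable def qf (n ℓ r : ℕ) (W : Finset (Fin n) → ℝ) (v : SI n ℓ → ℝ) : ℝ :=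
  ∑ I : SI n ℓ, ∑ J : SI n ℓ,
    if (symmDiff I.1 J.1).card = r then W (symmDiff I.1 J.1) * (v I * v J) else 0

/-- The top eigenvalue of the Kikuchi matrix with weights `W`. -/
noncomputable def X (n ℓ r : ℕ) (W : Finset (Fin n) → ℝ) : ℝ :=
  sSup {t : ℝ | ∃ v : SI n ℓ → ℝ, dotProduct v v = 1 ∧ t = qf n ℓ r W v}

lemma qf_eq (n ℓ r : ℕ) (W : Finset (Fin n) → ℝ) (v : SI n ℓ → ℝ) :
    dotProduct v (Matrix.mulVec (Matrix.of fun I J : {K : Finset (Fin n) // K.card = ℓ} =>
      if (symmDiff I.1 J.1).card = r then W (symmDiff I.1 J.1) else 0) v) = qf n ℓ r W v := by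
  unfold qf
  simp only [dotProduct, Matrix.mulVec, Matrix.of_apply]
  refine Finset.sum_congr rfl fun I _ => ?_
  rw [Finset.mul_sum]
  refine Finset.sum_congr rfl fun J _ => ?_
  split_ifs with h
  · ring
  · simp

lemma X_eq (n ℓ r : ℕ) (W : Finset (Fin n) → ℝ) :
    sSup {t : ℝ | ∃ v : {K : Finset (Fin n) // K.card = ℓ} → ℝ, dotProduct v v = 1 ∧
      t = dotProduct v (Matrix.mulVec (Matrix.of fun I J : {K : Finset (Fin n) // K.card = ℓ} =>
      if (symmDiff I.1 J.1).card = r then W (symmDiff I.1 J.1) else 0) v)} = X n ℓ r W := by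
  unfold X
  simp_rw [qf_eq]

lemma dp_eq {n ℓ : ℕ} (v : SI n ℓ → ℝ) : dotProduct v v = ∑ I, v I ^ 2 := by
  simp only [dotProduct, sq]

lemma qf_add (n ℓ r : ℕ) (W W' : Finset (Fin n) → ℝ) (v : SI n ℓ → ℝ) :
    qf n ℓ r (W + W') v = qf n ℓ r W v + qf n ℓ r W' v := by
  unfold qf
  simp only [← Finset.sum_add_distrib]
  refine Finset.sum_congr rfl fun I _ => Finset.sum_congr rfl fun J _ => ?_
  split_ifs
  · simp only [Pi.add_apply]; ring
  · simp

lemma qf_congr (n ℓ r : ℕ) (W W' : Finset (Fin n) → ℝ) (v : SI n ℓ → ℝ)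
    (h : ∀ S : Finset (Fin n), S.card = r → W S = W' S) :
    qf n ℓ r W v = qf n ℓ r W' v := by
  unfold qf
  refine Finset.sum_congr rfl fun I _ => Finset.sum_congr rfl fun J _ => ?_
  split_ifs with h1
  · rw [h _ h1]
  · rfl

lemma X_congr (n ℓ r : ℕ) (W W' : Finset (Fin n) → ℝ)
    (h : ∀ S : Finset (Fin n), S.card = r → W S = W' S) : X n ℓ r W = X n ℓ r W' := by
  unfold X
  simp_rw [qf_congr n ℓ r W W' _ h]

/-- a uniform bound for unit vectors -/
def Bd (n ℓ r : ℕ) (K : ℝ) : Prop := ∀ (W : Finset (Fin n) → ℝ) (v : SI n ℓ → ℝ),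
  dotProduct v v = 1 → |qf n ℓ r W v| ≤ K * nrm W

lemma abs_le_one {n ℓ : ℕ} (v : SI n ℓ → ℝ) (hv : dotProduct v v = 1) (I : SI n ℓ) : |v I| ≤ 1 := by
  rw [dp_eq] at hv
  have h : v I ^ 2 ≤ 1 := by
    rw [← hv]
    exact Finset.single_le_sum (f := fun I => v I ^ 2) (fun i _ => sq_nonneg _) (Finset.mem_univ I)
  have h2 : |v I| ^ 2 ≤ 1 := by rwa [sq_abs]
  nlinarith [abs_nonneg (v I)]

lemma abs_le_nrm {V : Type} [Fintype V] (W : V → ℝ) (S : V) : |W S| ≤ nrm W := by
  unfold nrm nsq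
  apply Real.le_sqrt_of_sq_le
  rw [sq_abs]
  exact Finset.single_le_sum (f := fun v => W v ^ 2) (fun i _ => sq_nonneg _) (Finset.mem_univ S)

lemma bd_crude (n ℓ r : ℕ) : ∃ K : ℝ, 0 < K ∧ Bd n ℓ r K := by
  refine ⟨(Fintype.card (SI n ℓ) : ℝ) * (Fintype.card (SI n ℓ) : ℝ) + 1, by positivity, ?_⟩
  intro W v hv
  have h1 : |qf n ℓ r W v| ≤ ∑ I : SI n ℓ, ∑ J : SI n ℓ, nrm W := by
    unfold qf
    refine (Finset.abs_sum_le_sum_abs _ _).trans (Finset.sum_le_sum fun I _ => ?_)
    refine (Finset.abs_sum_le_sum_abs _ _).trans (Finset.sum_le_sum fun J _ => ?_)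
    split_ifs
    · rw [abs_mul, abs_mul]
      have a1 := abs_le_nrm W (symmDiff I.1 J.1)
      have a2 := abs_le_one v hv I
      have a3 := abs_le_one v hv J
      calc |W (symmDiff I.1 J.1)| * (|v I| * |v J|) ≤ nrm W * (1 * 1) := by
            apply mul_le_mul a1 _ (by positivity) (nrm_nonneg W)
            exact mul_le_mul a2 a3 (abs_nonneg _) (by norm_num)
        _ = nrm W := by ring
    · simpa using nrm_nonneg W
  refine h1.trans ?_
  simp only [Finset.sum_const, Finset.card_univ, nsmul_eq_mul]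
  nlinarith [nrm_nonneg W]

lemma bddAbove (n ℓ r : ℕ) (W : Finset (Fin n) → ℝ) :
    BddAbove {t : ℝ | ∃ v : SI n ℓ → ℝ, dotProduct v v = 1 ∧ t = qf n ℓ r W v} := by
  obtain ⟨K, _, hK⟩ := bd_crude n ℓ r
  refine ⟨K * nrm W, ?_⟩
  rintro t ⟨v, hv, rfl⟩
  exact (le_abs_self _).trans (hK W v hv)

lemma le_X (n ℓ r : ℕ) (W : Finset (Fin n) → ℝ) (v : SI n ℓ → ℝ) (hv : dotProduct v v = 1) :
    qf n ℓ r W v ≤ X n ℓ r W :=
  le_csSup (bddAbove n ℓ r W) ⟨v, hv, rfl⟩

lemma X_le_add (n ℓ r : ℕ) {K : ℝ} (hK0 : 0 ≤ K) (hK : Bd n ℓ r K) (W W' : Finset (Fin n) → ℝ) :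
    X n ℓ r W ≤ X n ℓ r W' + K * nrm (W - W') := by
  by_cases hne : ({t : ℝ | ∃ v : SI n ℓ → ℝ, dotProduct v v = 1 ∧ t = qf n ℓ r W v}).Nonempty
  · refine csSup_le hne ?_
    rintro t ⟨v, hv, rfl⟩
    have e : W = W' + (W - W') := by abel
    calc qf n ℓ r W v = qf n ℓ r W' v + qf n ℓ r (W - W') v := by
          rw [← qf_add, ← e]
      _ ≤ X n ℓ r W' + K * nrm (W - W') :=
          add_le_add (le_X n ℓ r W' v hv) ((le_abs_self _).trans (hK _ v hv))
  · have h0 : ∀ W'', X n ℓ r W'' = 0 := by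
      intro W''
      unfold X
      have : {t : ℝ | ∃ v : SI n ℓ → ℝ, dotProduct v v = 1 ∧ t = qf n ℓ r W'' v} = ∅ := by
        rw [Set.eq_empty_iff_forall_notMem]
        rintro t ⟨v, hv, _⟩
        exact hne ⟨_, v, hv, rfl⟩
      rw [this, Real.sSup_empty]
    rw [h0, h0]
    have := nrm_nonneg (W - W')
    positivity

lemma nrm_sub_comm {V : Type} [Fintype V] (x y : V → ℝ) : nrm (x - y) = nrm (y - x) := by
  unfold nrm nsq
  congr 1
  refine Finset.sum_congr rfl fun i _ => ?_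
  simp only [Pi.sub_apply]
  ring

lemma X_lip (n ℓ r : ℕ) {K : ℝ} (hK0 : 0 ≤ K) (hK : Bd n ℓ r K) : Lip K (X n ℓ r) := by
  intro x y
  rw [abs_le]
  constructor
  · have := X_le_add n ℓ r hK0 hK y x
    rw [nrm_sub_comm y x] at this
    linarith
  · have := X_le_add n ℓ r hK0 hK x y
    linarith

/-- signs -/
noncomputable def chi {n : ℕ} (x : Fin n → ℤˣ) (S : Finset (Fin n)) : ℝ := ∏ i ∈ S, (((x i : ℤˣ) : ℤ) : ℝ)

lemma unit_cases (u : ℤˣ) : (((u : ℤˣ) : ℤ) : ℝ) = 1 ∨ (((u : ℤˣ) : ℤ) : ℝ) = -1 := by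
  rcases Int.units_eq_one_or u with h | h <;> simp [h]

lemma unit_sq (u : ℤˣ) : (((u : ℤˣ) : ℤ) : ℝ) * (((u : ℤˣ) : ℤ) : ℝ) = 1 := by
  rcases unit_cases u with h | h <;> rw [h] <;> norm_num

lemma chi_cases {n : ℕ} (x : Fin n → ℤˣ) (S : Finset (Fin n)) : chi x S = 1 ∨ chi x S = -1 := by
  unfold chi
  induction S using Finset.induction_on with
  | empty => simp
  | insert a s ha ih =>
    rw [Finset.prod_insert ha]
    rcases unit_cases (x a) with h | h <;> rcases ih with h' | h' <;> rw [h, h'] <;> norm_num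

lemma chi_sq {n : ℕ} (x : Fin n → ℤˣ) (S : Finset (Fin n)) : chi x S * chi x S = 1 := by
  rcases chi_cases x S with h | h <;> rw [h] <;> norm_num

lemma chi_symmDiff {n : ℕ} (x : Fin n → ℤˣ) (I J : Finset (Fin n)) :
    chi x (symmDiff I J) = chi x I * chi x J := by
  have e1 : chi x I = chi x (I \ J) * chi x (I ∩ J) := by
    unfold chi
    rw [← Finset.prod_union (Finset.disjoint_sdiff_inter I J), Finset.sdiff_union_inter]
  have e2 : chi x J = chi x (J \ I) * chi x (I ∩ J) := by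
    unfold chi
    rw [Finset.inter_comm, ← Finset.prod_union (Finset.disjoint_sdiff_inter J I),
      Finset.sdiff_union_inter]
  have e3 : chi x (symmDiff I J) = chi x (I \ J) * chi x (J \ I) := by
    unfold chi
    rw [symmDiff_def, Finset.sup_eq_union, Finset.prod_union]
    exact disjoint_sdiff_sdiff
  rw [e1, e2, e3]
  have := chi_sq x (I ∩ J)
  calc chi x (I \ J) * chi x (J \ I) = chi x (I \ J) * chi x (J \ I) * 1 := by ring
    _ = chi x (I \ J) * chi x (J \ I) * (chi x (I ∩ J) * chi x (I ∩ J)) := by rw [this]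
    _ = _ := by ring

lemma chi_mul {n : ℕ} (x y : Fin n → ℤˣ) (S : Finset (Fin n)) :
    chi (x * y) S = chi x S * chi y S := by
  unfold chi
  rw [← Finset.prod_mul_distrib]
  refine Finset.prod_congr rfl fun i _ => ?_
  simp [Pi.mul_apply]

lemma qf_sign (n ℓ r : ℕ) (W : Finset (Fin n) → ℝ) (v : SI n ℓ → ℝ) (x : Fin n → ℤˣ) :
    qf n ℓ r (fun S => chi x S * W S) v = qf n ℓ r W (fun I => chi x I.1 * v I) := by
  unfold qf
  refine Finset.sum_congr rfl fun I _ => Finset.sum_congr rfl fun J _ => ?_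
  split_ifs
  · simp only [chi_symmDiff]; ring
  · rfl

lemma X_sign (n ℓ r : ℕ) (W : Finset (Fin n) → ℝ) (x : Fin n → ℤˣ) :
    X n ℓ r (fun S => chi x S * W S) = X n ℓ r W := by
  unfold X
  congr 1
  ext t
  constructor
  · rintro ⟨v, hv, rfl⟩
    refine ⟨fun I => chi x I.1 * v I, ?_, qf_sign n ℓ r W v x⟩
    rw [← hv]
    simp only [dotProduct]
    refine Finset.sum_congr rfl fun I _ => ?_
    have := chi_sq x I.1
    linear_combination (v I * v I) * this
  · rintro ⟨v, hv, rfl⟩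
    refine ⟨fun I => chi x I.1 * v I, ?_, ?_⟩
    · rw [← hv]
      simp only [dotProduct]
      refine Finset.sum_congr rfl fun I _ => ?_
      have := chi_sq x I.1
      linear_combination (v I * v I) * this
    · rw [qf_sign]
      congr 1
      funext I
      have := chi_sq x I.1
      linear_combination -(v I) * this

/-- `X` is nonnegative as soon as there is an index (for `r ≠ 0`). -/
lemma X_nonneg (n ℓ r : ℕ) (hr : r ≠ 0) (hn : ℓ ≤ n) (W : Finset (Fin n) → ℝ) : 0 ≤ X n ℓ r W := by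
  classical
  obtain ⟨I0, _, hI0⟩ := Finset.exists_subset_card_eq (s := (Finset.univ : Finset (Fin n)))
    (n := ℓ) (by simpa using hn)
  have h := le_X n ℓ r W (fun I => if I = ⟨I0, hI0⟩ then 1 else 0) (by simp [dotProduct])
  refine le_trans (le_of_eq ?_) h
  symm
  unfold qf
  refine Finset.sum_eq_zero fun I _ => Finset.sum_eq_zero fun J _ => ?_
  split_ifs with h1
  · by_cases h2 : I = ⟨I0, hI0⟩
    · by_cases h3 : J = ⟨I0, hI0⟩
      · subst h2; subst h3
        simp at h1
        exact absurd h1.symm hr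
      · simp [h3]
    · simp [h2]
  · rfl

/-- `X` dominates each entry. -/
lemma entry_le_X (n ℓ r : ℕ) (hr : r ≠ 0) (W : Finset (Fin n) → ℝ) (I J : SI n ℓ)
    (h : (symmDiff I.1 J.1).card = r) : W (symmDiff I.1 J.1) ≤ X n ℓ r W := by
  classical
  have hIJ : I ≠ J := by
    rintro rfl
    simp at h
    exact hr h.symm
  set s : ℝ := Real.sqrt (1 / 2) with hs
  have hs2 : s * s = 1 / 2 := Real.mul_self_sqrt (by norm_num)
  set v : SI n ℓ → ℝ := fun K => (if K = I then s else 0) + (if K = J then s else 0) with hv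
  have hvv : dotProduct v v = 1 := by
    simp only [dotProduct, hv]
    have : ∀ K : SI n ℓ, ((if K = I then s else 0) + (if K = J then s else 0)) *
        ((if K = I then s else 0) + (if K = J then s else 0)) =
        (if K = I then s * s else 0) + (if K = J then s * s else 0) := by
      intro K
      by_cases h1 : K = I
      · have h2 : K ≠ J := by rw [h1]; exact hIJ
        simp [h1, hIJ]
      · by_cases h2 : K = J
        · subst h2; simp [Ne.symm hIJ]
        · simp [h1, h2]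
    rw [Finset.sum_congr rfl fun K _ => this K, Finset.sum_add_distrib]
    simp only [Finset.sum_ite_eq', Finset.mem_univ, if_true, hs2]
    norm_num
  have hle := le_X n ℓ r W v hvv
  refine le_trans (le_of_eq ?_) hle
  symm
  -- expand in terms of indicator functions
  have hterm : ∀ K L : SI n ℓ, (if (symmDiff K.1 L.1).card = r then
      W (symmDiff K.1 L.1) * (v K * v L) else 0) =
      (if K = I then (if L = J then W (symmDiff I.1 J.1) * (s * s) else 0) else 0) +
      (if K = J then (if L = I then W (symmDiff I.1 J.1) * (s * s) else 0) else 0) := by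
    intro K L
    have hr0 : ¬ (0 = r) := fun h => hr h.symm
    by_cases h1 : K = I
    · subst h1
      by_cases h2 : L = J
      · subst h2; simp [hv, h, hIJ, Ne.symm hIJ]
      · by_cases h3 : L = K
        · subst h3
          simp [hr0, hIJ]
        · simp [hv, h2, h3, hIJ]
    · by_cases h1' : K = J
      · subst h1'
        by_cases h2 : L = I
        · subst h2
          have hc : (symmDiff K.1 L.1).card = r := by rw [symmDiff_comm]; exact h
          rw [if_pos hc]
          simp [hv, hIJ, Ne.symm hIJ, symmDiff_comm K.1 L.1]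
        · by_cases h3 : L = K
          · subst h3; simp [hr0, h1, h2]
          · simp [hv, h1, h2, h3]
      · simp [hv, h1, h1']
  unfold qf
  rw [Finset.sum_congr rfl fun K _ => Finset.sum_congr rfl fun L _ => hterm K L]
  simp only [Finset.sum_add_distrib]
  have e1 : ∀ A B : SI n ℓ, ∑ K : SI n ℓ, ∑ L : SI n ℓ,
      (if K = A then (if L = B then W (symmDiff I.1 J.1) * (s * s) else 0) else 0) =
      W (symmDiff I.1 J.1) * (s * s) := by
    intro A B
    rw [Finset.sum_eq_single A]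
    · rw [Finset.sum_eq_single B]
      · simp
      · intro b _ hb; simp [hb]
      · intro h; exact absurd (Finset.mem_univ _) h
    · intro a _ ha; simp [ha]
    · intro h; exact absurd (Finset.mem_univ _) h
  rw [e1, e1, hs2]
  ring

end Pool.Agent.N935.Kik
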