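import Pool.Agent.N935.Kik.Lik

set_option autoImplicit false

/-!
# `r = 2`: bounded second moment of the likelihood ratio, growth of the noise eigenvalue
-/

namespace Pool.Agent.N935.Kik

open MeasureTheory ProbabilityTheory Finset
open Pool.Agent.H320R2.LD
open scoped ENNReal

lemma sq_sum_eq {n : ℕ} (s : Finset (Fin n)) (f : Fin n → ℝ) :
    (∑ i ∈ s, f i) ^ 2 = ∑ i ∈ s, f i ^ 2 + 2 * ∑ S ∈ s.powersetCard 2, ∏ i ∈ S, f i := by
  induction s using Finset.induction_on with
  | empty =>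
    have : (∅ : Finset (Fin n)).powersetCard 2 = ∅ := by
      rw [Finset.powersetCard_eq_empty]; simp
    rw [this]; simp
  | insert a s ha ih =>
    rw [Finset.sum_insert ha, Finset.sum_insert ha, Finset.powersetCard_succ_insert ha,
      Finset.sum_union]
    · rw [Finset.sum_image]
      · have e : ∑ T ∈ s.powersetCard 1, ∏ i ∈ insert a T, f i = ∑ i ∈ s, f a * f i := by
          rw [Finset.powersetCard_one, Finset.sum_map]
          refine Finset.sum_congr rfl fun i hi => ?_
          have hai : a ∉ ({i} : Finset (Fin n)) := by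
            simp only [Finset.mem_singleton]
            rintro rfl; exact ha hi
          simp only [Function.Embedding.coeFn_mk]
          rw [Finset.prod_insert hai, Finset.prod_singleton]
        rw [e, ← Finset.mul_sum]
        linear_combination ih
      · intro T hT T' hT' h
        have h1 : a ∉ T := fun h => ha ((Finset.mem_powersetCard.mp hT).1 h)
        have h2 : a ∉ T' := fun h => ha ((Finset.mem_powersetCard.mp hT').1 h)
        have h3 := congrArg (fun U => Finset.erase U a) h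
        simpa [Finset.erase_insert h1, Finset.erase_insert h2] using h3
    · rw [Finset.disjoint_left]
      intro T hT hT'
      obtain ⟨U, _, rfl⟩ := Finset.mem_image.mp hT'
      exact ha ((Finset.mem_powersetCard.mp hT).1 (Finset.mem_insert_self a U))

lemma sum_chi_two {n : ℕ} (z : Fin n → ℤˣ) :
    ∑ S ∈ Finset.univ.filter (fun S : Finset (Fin n) => S.card = 2), chi z S ≤
      (∑ i, (((z i : ℤˣ) : ℤ) : ℝ)) ^ 2 / 2 := by
  have h := sq_sum_eq Finset.univ (fun i => (((z i : ℤˣ) : ℤ) : ℝ))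
  have e : Finset.univ.filter (fun S : Finset (Fin n) => S.card = 2) =
      (Finset.univ : Finset (Fin n)).powersetCard 2 := by
    ext S; simp [Finset.mem_powersetCard]
  rw [e]
  have h2 : (0:ℝ) ≤ ∑ i : Fin n, (((z i : ℤˣ) : ℤ) : ℝ) ^ 2 := Finset.sum_nonneg fun _ _ => sq_nonneg _
  unfold chi
  linarith

lemma integrable_exp_sq (c : ℝ) (hc : c < 1 / 2) :
    Integrable (fun g : ℝ => Real.exp (c * g ^ 2)) (gaussianReal 0 1) := by
  rw [gaussianReal_of_var_ne_zero 0 one_ne_zero]
  rw [integrable_withDensity_iff_integrable_smul₀' (measurable_gaussianPDF 0 1).aemeasurable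
    (Filter.Eventually.of_forall fun x => gaussianPDF_lt_top)]
  have h := (integrable_exp_neg_mul_sq (b := 1 / 2 - c) (by linarith)).const_mul ((Real.sqrt (2 * Real.pi * 1))⁻¹)
  refine h.congr (Filter.Eventually.of_forall fun x => ?_)
  simp only [toReal_gaussianPDF, gaussianPDFReal_def, smul_eq_mul, NNReal.coe_one, sub_zero]
  rw [mul_assoc (Real.sqrt (2 * Real.pi * 1))⁻¹ (Real.exp _) (Real.exp _), ← Real.exp_add]
  congr 2
  ring

/-- the constant -/
noncomputable def Cc (c : ℝ) : ℝ := ∫ g, Real.exp (c * g ^ 2) ∂(gaussianReal 0 1)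

lemma exp_lin_one (t : ℝ) : ∫ g, Real.exp (t * g) ∂(gaussianReal 0 1) = Real.exp (t ^ 2 / 2) := by
  have h := mgf_gaussianReal (p := gaussianReal 0 1) (X := id) (μ := 0) (v := 1) (by simp) t
  simp only [mgf, id, zero_mul, NNReal.coe_one, one_mul, zero_add] at h
  exact h

lemma sum_prod_units (n : ℕ) (t : ℝ) :
    ∑ z : Fin n → ℤˣ, Real.exp (t * ∑ i, (((z i : ℤˣ) : ℤ) : ℝ)) = (2 * Real.cosh t) ^ n := by
  have e : ∀ z : Fin n → ℤˣ, Real.exp (t * ∑ i, (((z i : ℤˣ) : ℤ) : ℝ)) =
      ∏ i, Real.exp (t * (((z i : ℤˣ) : ℤ) : ℝ)) := by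
    intro z; rw [Finset.mul_sum, Real.exp_sum]
  simp_rw [e]
  have h := (Finset.prod_univ_sum (fun _ : Fin n => (Finset.univ : Finset ℤˣ))
    (fun _ u => Real.exp (t * (((u : ℤˣ) : ℤ) : ℝ)))).symm
  rw [Fintype.piFinset_univ] at h
  rw [h, Finset.prod_const, Finset.card_univ, Fintype.card_fin]
  congr 1
  have : (Finset.univ : Finset ℤˣ) = {1, -1} := rfl
  rw [this, Finset.sum_pair (by decide)]
  simp only [Units.val_one, Int.cast_one, mul_one, Units.val_neg, Int.cast_neg, mul_neg]
  rw [Real.cosh_eq]; ring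

lemma mean_exp_sq (n : ℕ) (a : ℝ) (c : ℝ) (hc : c < 1 / 2) (hac : n * a ^ 2 ≤ 2 * c) :
    (Nn n)⁻¹ * ∑ z : Fin n → ℤˣ, Real.exp ((a * ∑ i, (((z i : ℤˣ) : ℤ) : ℝ)) ^ 2 / 2) ≤ Cc c := by
  have h1 : ∀ z : Fin n → ℤˣ, Real.exp ((a * ∑ i, (((z i : ℤˣ) : ℤ) : ℝ)) ^ 2 / 2) =
      ∫ g, Real.exp ((a * g) * ∑ i, (((z i : ℤˣ) : ℤ) : ℝ)) ∂(gaussianReal 0 1) := by
    intro z
    rw [← exp_lin_one]
    refine integral_congr_ae (Filter.Eventually.of_forall fun g => ?_)
    simp only; congr 1; ring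
  simp_rw [h1]
  have hint : ∀ z : Fin n → ℤˣ, Integrable (fun g : ℝ => Real.exp ((a * g) *
      ∑ i, (((z i : ℤˣ) : ℤ) : ℝ))) (gaussianReal 0 1) := by
    intro z
    have := integrable_exp_mul_gaussianReal (μ := 0) (v := 1) (a * ∑ i, (((z i : ℤˣ) : ℤ) : ℝ))
    refine this.congr (Filter.Eventually.of_forall fun g => ?_)
    simp only; congr 1; ring
  rw [← integral_finsetSum _ fun z _ => hint z, ← integral_const_mul]
  unfold Cc
  refine integral_mono ((integrable_finsetSum _ fun z _ => hint z).const_mul _)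
    (integrable_exp_sq c hc) fun g => ?_
  simp only
  rw [sum_prod_units, Nn_eq, mul_pow, ← mul_assoc, inv_mul_cancel₀ (by positivity), one_mul]
  calc Real.cosh (a * g) ^ n ≤ (Real.exp ((a * g) ^ 2 / 2)) ^ n := by
        apply pow_le_pow_left₀ (Real.cosh_pos _).le (Real.cosh_le_exp_half_sq _)
    _ = Real.exp (n * ((a * g) ^ 2 / 2)) := by rw [← Real.exp_nat_mul]
    _ ≤ Real.exp (c * g ^ 2) := by
        apply Real.exp_le_exp.mpr
        nlinarith [sq_nonneg g]

lemma Lr_two_le (n : ℕ) (lam c : ℝ) (hc : c < 1 / 2) (hac : n * lam ^ 2 ≤ 2 * c) :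
    ∫ Z, Lr n 2 lam Z ^ 2 ∂(gam (Finset (Fin n))) ≤ Cc c := by
  rw [integral_Lr_sq]
  refine le_trans ?_ (mean_exp_sq n lam c hc hac)
  apply mul_le_mul_of_nonneg_left _ (inv_nonneg.mpr (Nn_pos n).le)
  refine Finset.sum_le_sum fun z _ => Real.exp_le_exp.mpr ?_
  have := sum_chi_two z
  nlinarith [sq_nonneg lam]

/-- Growth: the mean noise eigenvalue exceeds any constant. -/
lemma mean_growth (ℓ : ℕ) (hℓ : 1 ≤ ℓ) (K : ℝ) (hK : 0 < K) :
    ∃ n0 : ℕ, ∀ n ≥ n0, K / 2 ≤ ∫ Z, X n ℓ 2 Z ∂(gam (Finset (Fin n))) := by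
  classical
  set q : ℝ := (gaussianReal 0 1).real (Set.Iio K) with hq
  have hq0 : 0 ≤ q := measureReal_nonneg
  have hq1 : q < 1 := by
    have h1 : (gaussianReal 0 1).real (Set.Iio K)ᶜ = 1 - q := by
      rw [probReal_compl_eq_one_sub measurableSet_Iio]
    have h2 : 0 < (gaussianReal 0 1).real (Set.Iio K)ᶜ := by
      rw [Set.compl_Iio]
      have : Measure.IsOpenPosMeasure (gaussianReal 0 1) := by
        exact (gaussianReal_absolutelyContinuous' 0 one_ne_zero).isOpenPosMeasure
      have h3 : 0 < (gaussianReal 0 1) (Set.Ioi K) := isOpen_Ioi.measure_pos _ ⟨K + 1, by simp⟩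
      have h4 : 0 < (gaussianReal 0 1) (Set.Ici K) := lt_of_lt_of_le h3 (measure_mono Set.Ioi_subset_Ici_self)
      exact ENNReal.toReal_pos h4.ne' (measure_ne_top _ _)
    linarith
  obtain ⟨m, hm⟩ := exists_pow_lt_of_lt_one (show (0:ℝ) < 1 / 2 by norm_num) hq1
  refine ⟨ℓ + m, fun n hn => ?_⟩
  -- base set
  obtain ⟨I0, _, hI0⟩ := Finset.exists_subset_card_eq (s := (Finset.univ : Finset (Fin n)))
    (n := ℓ) (by simp; omega)
  obtain ⟨a0, ha0⟩ : I0.Nonempty := Finset.card_pos.mp (by omega)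
  -- the family of pairs
  set 𝒮 : Finset (Finset (Fin n)) := (Finset.univ \ I0).image (fun b => ({a0, b} : Finset (Fin n))) with h𝒮
  have hcard : m ≤ 𝒮.card := by
    rw [h𝒮, Finset.card_image_of_injOn]
    · rw [Finset.card_sdiff_of_subset (Finset.subset_univ _), hI0, Finset.card_univ, Fintype.card_fin]
      omega
    · intro b hb b' hb' h
      have hb1 : b ∉ I0 := by simpa using hb
      have hb2 : b' ∉ I0 := by simpa using hb'
      have : b ∈ ({a0, b'} : Finset (Fin n)) := by
        have h5 : ({a0, b} : Finset (Fin n)) = {a0, b'} := h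
        rw [← h5]; simp
      rcases Finset.mem_insert.mp this with h6 | h6
      · rw [h6] at hb1; exact absurd ha0 hb1
      · exact Finset.mem_singleton.mp h6
  have hS : ∀ S ∈ 𝒮, ∀ Z : Finset (Fin n) → ℝ, Z S ≤ X n ℓ 2 Z := by
    intro S hS Z
    obtain ⟨b, hb, rfl⟩ := Finset.mem_image.mp hS
    have hb1 : b ∉ I0 := by simpa using hb
    have hab : a0 ≠ b := by rintro rfl; exact hb1 ha0
    set J0 : Finset (Fin n) := insert b (I0.erase a0) with hJ0
    have hbe : b ∉ I0.erase a0 := fun h => hb1 (Finset.mem_of_mem_erase h)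
    have hJc : J0.card = ℓ := by
      rw [hJ0, Finset.card_insert_of_notMem hbe, Finset.card_erase_of_mem ha0, hI0]
      omega
    have hsd : symmDiff I0 J0 = {a0, b} := by
      ext x
      simp only [Finset.mem_symmDiff, hJ0, Finset.mem_insert, Finset.mem_erase, Finset.mem_singleton]
      by_cases h1 : x = a0
      · subst h1; simp [ha0, hab]
      · by_cases h2 : x = b
        · subst h2; simp [hb1]
        · simp [h1, h2]
    have := entry_le_X n ℓ 2 (by norm_num) Z ⟨I0, hI0⟩ ⟨J0, hJc⟩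
      (by simp only [hsd]; exact Finset.card_pair hab)
    simpa only [hsd] using this
  have hX0 : ∀ Z : Finset (Fin n) → ℝ, 0 ≤ X n ℓ 2 Z := fun Z => X_nonneg n ℓ 2 (by norm_num) (by omega) Z
  -- the bad event
  set B : Set (Finset (Fin n) → ℝ) := Set.univ.pi (fun S => if S ∈ 𝒮 then Set.Iio K else Set.univ) with hB
  have hBm : MeasurableSet B := by
    apply MeasurableSet.univ_pi
    intro S
    split_ifs
    · exact measurableSet_Iio
    · exact MeasurableSet.univ
  have hBμ : (gam (Finset (Fin n))).real B ≤ 1 / 2 := by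
    have e1 : (gam (Finset (Fin n))) B = ∏ S : Finset (Fin n),
        (gaussianReal 0 1) (if S ∈ 𝒮 then Set.Iio K else Set.univ) := by
      rw [hB]; exact Measure.pi_pi _ _
    have e2 : (gam (Finset (Fin n))).real B = ∏ S : Finset (Fin n), (if S ∈ 𝒮 then q else 1) := by
      rw [measureReal_def, e1, ENNReal.toReal_prod]
      refine Finset.prod_congr rfl fun S _ => ?_
      split_ifs
      · rfl
      · simp
    rw [e2, Finset.prod_ite_mem, Finset.univ_inter, Finset.prod_const]
    calc q ^ 𝒮.card ≤ q ^ m := pow_le_pow_of_le_one hq0 hq1.le hcard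
      _ ≤ 1 / 2 := hm.le
  have hpt : ∀ Z : Finset (Fin n) → ℝ, Bᶜ.indicator (fun _ => K) Z ≤ X n ℓ 2 Z := by
    intro Z
    by_cases hZ : Z ∈ Bᶜ
    · rw [Set.indicator_of_mem hZ]
      have : ∃ S, Z S ∉ (if S ∈ 𝒮 then Set.Iio K else Set.univ : Set ℝ) := by
        by_contra hcon
        push Not at hcon
        exact hZ (fun S _ => hcon S)
      obtain ⟨S, hS1⟩ := this
      by_cases h : S ∈ 𝒮
      · rw [if_pos h] at hS1
        have : K ≤ Z S := by simpa using hS1
        exact this.trans (hS S h Z)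
      · rw [if_neg h] at hS1
        exact absurd (Set.mem_univ _) hS1
    · rw [Set.indicator_of_notMem hZ]
      exact hX0 Z
  have hint : Integrable (Bᶜ.indicator (fun _ : Finset (Fin n) → ℝ => K)) (gam (Finset (Fin n))) :=
    (integrable_const K).indicator hBm.compl
  calc K / 2 ≤ (gam (Finset (Fin n))).real Bᶜ * K := by
        rw [probReal_compl_eq_one_sub hBm]
        nlinarith
    _ = ∫ Z, Bᶜ.indicator (fun _ => K) Z ∂(gam (Finset (Fin n))) := by
        rw [integral_indicator_const _ hBm.compl, smul_eq_mul]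
    _ ≤ _ := integral_mono hint (integrable_X n ℓ 2) hpt

end Pool.Agent.N935.Kik
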