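import Mathlib
import Pool.Agent.H320R2.LD.MGF
import Pool.Agent.H988R2.Gauss

set_option autoImplicit false

/-!
# Gaussian product measures: shifts, exponential moments, sign flips, variance of Lipschitz functions
-/

namespace Pool.Agent.N935.Kik

open MeasureTheory ProbabilityTheory Finset
open Pool.Agent.H320R2.LD
open scoped ENNReal

variable {V : Type} [Fintype V]

/-- Real density. -/
noncomputable def dn (x : V → ℝ) : ℝ := ∏ i, gaussianPDFReal 0 1 (x i)

lemma dn_nonneg (x : V → ℝ) : 0 ≤ dn x := Finset.prod_nonneg fun i _ => gaussianPDFReal_nonneg 0 1 _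

lemma dn_meas : Measurable (dn : (V → ℝ) → ℝ) :=
  Finset.measurable_prod _ fun i _ => (measurable_gaussianPDFReal 0 1).comp (measurable_pi_apply i)

lemma gam_dens : gam V = (volume : Measure (V → ℝ)).withDensity (fun x => ENNReal.ofReal (dn x)) := by
  have h3 : (fun _ : V => gaussianReal 0 1) =
      fun _ : V => (volume : Measure ℝ).withDensity (gaussianPDF 0 1) := by
    funext _
    exact gaussianReal_of_var_ne_zero 0 one_ne_zero
  have hsf : ∀ _ : V, SigmaFinite ((volume : Measure ℝ).withDensity (gaussianPDF 0 1)) := by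
    intro _
    rw [← gaussianReal_of_var_ne_zero 0 one_ne_zero]
    infer_instance
  unfold gam
  rw [h3, Pool.Agent.H988R2.pi_withDensity_real (fun _ : V => gaussianPDF 0 1)
    (fun _ => measurable_gaussianPDF 0 1) hsf]
  congr 1
  funext x
  unfold dn
  rw [ENNReal.ofReal_prod_of_nonneg fun i _ => gaussianPDFReal_nonneg 0 1 _]
  rfl

lemma integral_gam (f : (V → ℝ) → ℝ) : ∫ x, f x ∂(gam V) = ∫ x, dn x * f x := by
  rw [gam_dens, integral_withDensity_eq_integral_toReal_smul dn_meas.ennreal_ofReal
    (Filter.Eventually.of_forall fun x => ENNReal.ofReal_lt_top)]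
  refine integral_congr_ae (Filter.Eventually.of_forall fun x => ?_)
  simp only [smul_eq_mul]
  rw [ENNReal.toReal_ofReal (dn_nonneg x)]

lemma dn_sub (x h : V → ℝ) :
    dn (x - h) = dn x * Real.exp (∑ i, h i * x i - (∑ i, h i ^ 2) / 2) := by
  unfold dn
  rw [Finset.sum_div, ← Finset.sum_sub_distrib, Real.exp_sum, ← Finset.prod_mul_distrib]
  refine Finset.prod_congr rfl fun i _ => ?_
  simp only [gaussianPDFReal_def, Pi.sub_apply, NNReal.coe_one, mul_one, sub_zero]
  rw [mul_assoc, ← Real.exp_add]
  congr 2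
  ring

/-- Cameron-Martin formula. -/
lemma cam (f : (V → ℝ) → ℝ) (h : V → ℝ) :
    ∫ x, f (x + h) ∂(gam V) =
      ∫ x, Real.exp (∑ i, h i * x i - (∑ i, h i ^ 2) / 2) * f x ∂(gam V) := by
  rw [integral_gam, integral_gam]
  have h1 := integral_add_right_eq_self (μ := (volume : Measure (V → ℝ)))
    (fun x => dn (x - h) * f x) h
  simp only [add_sub_cancel_right] at h1
  rw [h1]
  refine integral_congr_ae (Filter.Eventually.of_forall fun x => ?_)
  simp only
  rw [dn_sub]
  ring

lemma integral_exp_lin (h : V → ℝ) :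
    ∫ x, Real.exp (∑ i, h i * x i) ∂(gam V) = Real.exp ((∑ i, h i ^ 2) / 2) := by
  have h1 := cam (V := V) (fun _ => (1:ℝ)) h
  simp only [integral_const, probReal_univ, one_smul, mul_one] at h1
  have h2 : ∀ x : V → ℝ, Real.exp (∑ i, h i * x i - (∑ i, h i ^ 2) / 2) =
      Real.exp (-((∑ i, h i ^ 2) / 2)) * Real.exp (∑ i, h i * x i) := by
    intro x
    rw [← Real.exp_add]; congr 1; ring
  simp_rw [h2] at h1
  rw [integral_const_mul, Real.exp_neg] at h1
  have h3 : Real.exp ((∑ i, h i ^ 2) / 2) ≠ 0 := (Real.exp_pos _).ne'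
  field_simp at h1
  exact h1.symm

lemma integrable_exp_lin (h : V → ℝ) :
    Integrable (fun x : V → ℝ => Real.exp (∑ i, h i * x i)) (gam V) := by
  have e : (fun x : V → ℝ => Real.exp (∑ i, h i * x i)) = fun x => ∏ i, Real.exp (h i * x i) := by
    funext x; rw [Real.exp_sum]
  rw [e]
  unfold gam
  exact Integrable.fintype_prod (f := fun i y => Real.exp (h i * y))
    fun i => integrable_exp_mul_gaussianReal (h i)

/-- Sign flips preserve the Gaussian measure. -/
lemma flip_mp (c : V → ℝ) (hc : ∀ i, c i = 1 ∨ c i = -1) :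
    MeasurePreserving (fun x : V → ℝ => fun i => c i * x i) (gam V) (gam V) := by
  unfold gam
  refine measurePreserving_pi _ _ (f := fun i y => c i * y) fun i => ?_
  rcases hc i with h | h
  · have e : (fun y : ℝ => c i * y) = id := by funext y; rw [h]; simp
    rw [e]
    exact MeasurePreserving.id _
  · refine ⟨by fun_prop, ?_⟩
    have := gaussianReal_map_neg (μ := 0) (v := 1)
    simp only [neg_zero] at this
    have e : (fun y : ℝ => c i * y) = fun y => -y := by funext y; rw [h]; simp
    rw [e]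
    exact this

lemma integral_flip (c : V → ℝ) (hc : ∀ i, c i = 1 ∨ c i = -1) (f : (V → ℝ) → ℝ)
    (hf : Measurable f) :
    ∫ x, f (fun i => c i * x i) ∂(gam V) = ∫ x, f x ∂(gam V) := by
  have h := (flip_mp c hc)
  have h2 := integral_map (μ := gam V) (f := f) h.measurable.aemeasurable
    (by rw [h.map_eq]; exact hf.aestronglyMeasurable)
  rw [h.map_eq] at h2
  exact h2.symm

/-- Second moment of a centred Lipschitz function. -/
lemma lip_var (f : (V → ℝ) → ℝ) (L : ℝ) (hL : 0 < L) (hf : Lip L f) :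
    Integrable (fun x => (f x - ∫ y, f y ∂(gam V)) ^ 2) (gam V) ∧
    ∫ x, (f x - ∫ y, f y ∂(gam V)) ^ 2 ∂(gam V) ≤ 12 * L ^ 2 := by
  obtain ⟨h1, h2, h3⟩ := prove_MGF V f L hL hf
  set E := ∫ y, f y ∂(gam V) with hE
  -- (t x)^2 / 2 ≤ exp (t x) + exp (- t x)
  have hint : ∀ lam : ℝ, Integrable (fun x => Real.exp (lam * (f x - E))) (gam V) := by
    intro lam
    have e : (fun x => Real.exp (lam * (f x - E))) = fun x =>
        Real.exp (-(lam * E)) * Real.exp (lam * f x) := by
      funext x; rw [← Real.exp_add]; congr 1; ring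
    rw [e]
    exact (h2 lam).const_mul _
  have hpt : ∀ x, (f x - E) ^ 2 ≤
      L ^ 2 * (2 * (Real.exp (1 / L * (f x - E)) + Real.exp (-(1 / L) * (f x - E)))) := by
    intro x
    set y := 1 / L * (f x - E) with hy
    have hfy : f x - E = L * y := by rw [hy]; field_simp
    have e2 : -(1 / L) * (f x - E) = -y := by rw [hy]; ring
    rw [e2, hfy, mul_pow]
    apply mul_le_mul_of_nonneg_left _ (by positivity)
    have h7 := Real.exp_pos y
    have h8 := Real.exp_pos (-y)
    rcases le_total 0 y with h | h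
    · have h4 := Real.quadratic_le_exp_of_nonneg h
      nlinarith
    · have h4 := Real.quadratic_le_exp_of_nonneg (x := -y) (by linarith)
      nlinarith
  have hbi : Integrable (fun x => L ^ 2 * (2 * (Real.exp (1 / L * (f x - E)) +
      Real.exp (-(1 / L) * (f x - E))))) (gam V) :=
    ((((hint (1 / L)).add (hint (-(1 / L)))).const_mul 2)).const_mul _
  have hfm : AEStronglyMeasurable (fun x => (f x - E) ^ 2) (gam V) :=
    (h1.aestronglyMeasurable.sub aestronglyMeasurable_const).pow 2
  have hsq : Integrable (fun x => (f x - E) ^ 2) (gam V) := by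
    refine hbi.mono' hfm (Filter.Eventually.of_forall fun x => ?_)
    rw [Real.norm_of_nonneg (sq_nonneg _)]
    exact hpt x
  refine ⟨hsq, ?_⟩
  calc ∫ x, (f x - E) ^ 2 ∂(gam V) ≤ ∫ x, L ^ 2 * (2 * (Real.exp (1 / L * (f x - E)) +
      Real.exp (-(1 / L) * (f x - E)))) ∂(gam V) := integral_mono hsq hbi hpt
    _ = L ^ 2 * (2 * (∫ x, Real.exp (1 / L * (f x - E)) ∂(gam V) +
        ∫ x, Real.exp (-(1 / L) * (f x - E)) ∂(gam V))) := by
        rw [integral_const_mul, integral_const_mul]
        congr 2
        exact integral_add (hint _) (hint _)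
    _ ≤ L ^ 2 * (2 * (Real.exp 1 + Real.exp 1)) := by
        apply mul_le_mul_of_nonneg_left _ (by positivity)
        have e1 : (1 / L) ^ 2 * L ^ 2 = 1 := by field_simp
        have e2 : (-(1 / L)) ^ 2 * L ^ 2 = 1 := by field_simp
        have a1 := h3 (1 / L)
        have a2 := h3 (-(1 / L))
        rw [e1] at a1
        rw [e2] at a2
        linarith
    _ ≤ 12 * L ^ 2 := by
        have := Real.exp_one_lt_d9
        have hL2 : 0 < L ^ 2 := by positivity
        nlinarith

end Pool.Agent.N935.Kik
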