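import Pool.Agent.N935.Kik.Def
import Pool.Agent.HS.M_he_facts
import Pool.Agent.HS.M_poly_integrable

set_option autoImplicit false

/-!
# Hermite products and polynomial functions of a Gaussian vector
-/

set_option linter.unusedSectionVars false

namespace Pool.Agent.N935.Kik

open MeasureTheory ProbabilityTheory Finset
open Pool.Agent.H320R2.LD
open scoped ENNReal

lemma he_mul (j : ℕ) (x : ℝ) :
    x * (HS.he j).eval x = (HS.he (j + 1)).eval x + j * (HS.he (j - 1)).eval x := by
  rcases j with _ | j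
  · simp [HS.he]
  · rw [HS.he_facts_rec j]
    simp

lemma he_succ_eq (j : ℕ) : HS.he (j + 1) = Polynomial.X * HS.he j - Polynomial.derivative (HS.he j) := by
  rcases j with _ | j
  · simp [HS.he]
  · rw [HS.he_facts_rec j, (HS.he_facts_der j).1]

lemma hasDerivAt_pdf (s : ℝ) : HasDerivAt (gaussianPDFReal 0 1) (-s * gaussianPDFReal 0 1 s) s := by
  have h0 : gaussianPDFReal 0 1 = fun s : ℝ => (√(2 * Real.pi))⁻¹ * Real.exp (-s ^ 2 / 2) := by
    ext x
    simp [gaussianPDFReal]
  rw [h0]
  have h1 : HasDerivAt (fun s : ℝ => -s ^ 2 / 2) (-s) s := by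
    have := ((hasDerivAt_pow 2 s).neg).div_const 2
    refine this.congr_deriv ?_
    simp only [Nat.cast_ofNat, Nat.add_one_sub_one, pow_one]
    ring
  have h2 := (h1.exp).const_mul ((√(2 * Real.pi))⁻¹)
  refine h2.congr_deriv ?_
  ring

lemma integrable_poly_pdf (P : Polynomial ℝ) :
    Integrable (fun s => gaussianPDFReal 0 1 s * P.eval s) volume := by
  have h := HS.poly_integrable P
  have h' : Integrable (fun s => P.eval s) (gaussianReal 0 1) := h
  rw [gaussianReal_of_var_ne_zero 0 one_ne_zero] at h'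
  rw [integrable_withDensity_iff_integrable_smul₀' (measurable_gaussianPDF 0 1).aemeasurable
    (Filter.Eventually.of_forall fun x => gaussianPDF_lt_top)] at h'
  refine h'.congr (Filter.Eventually.of_forall fun x => ?_)
  simp only [toReal_gaussianPDF, smul_eq_mul]

lemma integral_he (j : ℕ) : ∫ s, (HS.he j).eval s ∂(gaussianReal 0 1) = if j = 0 then 1 else 0 := by
  rcases j with _ | j
  · simp [HS.he]
  · rw [if_neg (Nat.succ_ne_zero j), integral_gaussianReal_eq_integral_smul one_ne_zero]
    simp only [smul_eq_mul]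
    have hd : ∀ s, HasDerivAt (fun s => -(gaussianPDFReal 0 1 s * (HS.he j).eval s))
        (gaussianPDFReal 0 1 s * (HS.he (j + 1)).eval s) s := by
      intro s
      have h1 := ((hasDerivAt_pdf s).mul ((HS.he j).hasDerivAt s)).neg
      refine h1.congr_deriv ?_
      rw [he_succ_eq]
      simp only [Polynomial.eval_sub, Polynomial.eval_mul, Polynomial.eval_X]
      ring
    exact integral_eq_zero_of_hasDerivAt_of_integrable hd (integrable_poly_pdf _)
      (integrable_poly_pdf _).neg

variable {V : Type} [Fintype V]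

/-- polynomial functions -/
def PolyF (f : (V → ℝ) → ℝ) : Prop := ∃ p : MvPolynomial V ℝ, ∀ Z, f Z = MvPolynomial.eval Z p

lemma PolyF.integrable {f : (V → ℝ) → ℝ} (hf : PolyF f) : Integrable f (gam V) := by
  obtain ⟨p, hp⟩ := hf
  have e : f = fun Z => ∑ d ∈ p.support, p.coeff d * ∏ i, Z i ^ d i := by
    funext Z
    rw [hp, MvPolynomial.eval_eq']
  rw [e]
  refine integrable_finsetSum _ fun d _ => Integrable.const_mul ?_ _
  unfold gam
  exact Integrable.fintype_prod (f := fun i y => y ^ d i) fun i => HS.poly_integrable_pow (d i)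

lemma PolyF.const (c : ℝ) : PolyF (fun _ : V → ℝ => c) := ⟨MvPolynomial.C c, fun Z => by simp⟩

lemma PolyF.coord (v : V) : PolyF (fun Z : V → ℝ => Z v) := ⟨MvPolynomial.X v, fun Z => by simp⟩

lemma PolyF.add {f g : (V → ℝ) → ℝ} (hf : PolyF f) (hg : PolyF g) : PolyF (fun Z => f Z + g Z) := by
  obtain ⟨p, hp⟩ := hf
  obtain ⟨q, hq⟩ := hg
  exact ⟨p + q, fun Z => by simp only [hp, hq, map_add]⟩

lemma PolyF.mul {f g : (V → ℝ) → ℝ} (hf : PolyF f) (hg : PolyF g) : PolyF (fun Z => f Z * g Z) := by
  obtain ⟨p, hp⟩ := hf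
  obtain ⟨q, hq⟩ := hg
  exact ⟨p * q, fun Z => by simp only [hp, hq, map_mul]⟩

lemma PolyF.sum {ι : Type} (s : Finset ι) {f : ι → (V → ℝ) → ℝ} (hf : ∀ i ∈ s, PolyF (f i)) :
    PolyF (fun Z => ∑ i ∈ s, f i Z) := by
  classical
  induction s using Finset.induction_on with
  | empty => simpa using PolyF.const (V := V) 0
  | insert a s ha ih =>
    simp only [Finset.sum_insert ha]
    exact (hf a (Finset.mem_insert_self _ _)).add
      (ih fun i hi => hf i (Finset.mem_insert_of_mem hi))

lemma PolyF.prod {ι : Type} (s : Finset ι) {f : ι → (V → ℝ) → ℝ} (hf : ∀ i ∈ s, PolyF (f i)) :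
    PolyF (fun Z => ∏ i ∈ s, f i Z) := by
  classical
  induction s using Finset.induction_on with
  | empty => simpa using PolyF.const (V := V) 1
  | insert a s ha ih =>
    simp only [Finset.prod_insert ha]
    exact (hf a (Finset.mem_insert_self _ _)).mul
      (ih fun i hi => hf i (Finset.mem_insert_of_mem hi))

lemma PolyF.poly (P : Polynomial ℝ) (v : V) : PolyF (fun Z : V → ℝ => P.eval (Z v)) := by
  refine ⟨Polynomial.aeval (MvPolynomial.X v) P, fun Z => ?_⟩
  rw [Polynomial.aeval_def, Polynomial.hom_eval₂]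
  simp only [MvPolynomial.eval_X]
  rw [Polynomial.eval, Polynomial.eval₂_congr _ rfl rfl]
  ext c
  simp

/-- multivariate Hermite product -/
noncomputable def HP (o : V → ℕ) (Z : V → ℝ) : ℝ := ∏ v, (HS.he (o v)).eval (Z v)

lemma HP_polyF (o : V → ℕ) : PolyF (HP o) :=
  PolyF.prod Finset.univ fun v _ => PolyF.poly (HS.he (o v)) v

lemma integral_HP (o : V → ℕ) : ∫ Z, HP o Z ∂(gam V) = if (∀ v, o v = 0) then 1 else 0 := by
  unfold HP gam
  rw [integral_fintype_prod_eq_prod (fun (v : V) (s : ℝ) => (HS.he (o v)).eval s)]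
  simp_rw [integral_he]
  split_ifs with h
  · exact Finset.prod_eq_one fun v _ => by rw [if_pos (h v)]
  · push Not at h
    obtain ⟨v, hv⟩ := h
    exact Finset.prod_eq_zero (Finset.mem_univ v) (by rw [if_neg hv])

lemma HP_mul [DecidableEq V] (o : V → ℕ) (v : V) (Z : V → ℝ) :
    Z v * HP o Z = HP (Function.update o v (o v + 1)) Z +
      (o v : ℝ) * HP (Function.update o v (o v - 1)) Z := by
  have key : ∀ j : ℕ, HP (Function.update o v j) Z = (HS.he j).eval (Z v) *
      ∏ w ∈ Finset.univ.erase v, (HS.he (o w)).eval (Z w) := by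
    intro j
    unfold HP
    rw [← Finset.mul_prod_erase Finset.univ _ (Finset.mem_univ v)]
    congr 1
    · simp
    · refine Finset.prod_congr rfl fun w hw => ?_
      rw [Function.update_of_ne (Finset.ne_of_mem_erase hw)]
  have h0 : HP o Z = (HS.he (o v)).eval (Z v) *
      ∏ w ∈ Finset.univ.erase v, (HS.he (o w)).eval (Z w) := by
    have := key (o v)
    rwa [Function.update_eq_self] at this
  rw [key, key, h0, ← mul_assoc, he_mul]
  ring

end Pool.Agent.N935.Kik
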