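import Pool.Agent.N935.Kik.Two

set_option autoImplicit false

/-!
# The averaged likelihood ratio for `r = 2`
-/

namespace Pool.Agent.N935.Kik

open MeasureTheory ProbabilityTheory Finset
open Pool.Agent.H320R2.LD
open scoped ENNReal

/-- the shift -/
noncomputable def hx {n : ℕ} (r : ℕ) (lam : ℝ) (x : Fin n → ℤˣ) (S : Finset (Fin n)) : ℝ :=
  if S.card = r then lam * chi x S else 0

/-- the likelihood ratio for the sign vector `x` -/
noncomputable def gx {n : ℕ} (r : ℕ) (lam : ℝ) (x : Fin n → ℤˣ) (Z : Finset (Fin n) → ℝ) : ℝ :=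
  Real.exp (∑ S, hx r lam x S * Z S - (∑ S, hx r lam x S ^ 2) / 2)

lemma X_meas (n ℓ r : ℕ) : Measurable (X n ℓ r) := by
  obtain ⟨K, hK0, hK⟩ := bd_crude n ℓ r
  exact (MGF.lip_continuous hK0.le (X_lip n ℓ r hK0.le hK)).measurable

lemma shift_one (n ℓ r : ℕ) (lam : ℝ) (x : Fin n → ℤˣ) :
    ∫ Z, X n ℓ r (fun S => lam + Z S) ∂(gam (Finset (Fin n))) =
      ∫ Z, gx r lam x Z * X n ℓ r Z ∂(gam (Finset (Fin n))) := by
  have hm : Measurable (fun Z : Finset (Fin n) → ℝ => X n ℓ r (fun S => lam + Z S)) :=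
    (X_meas n ℓ r).comp (by fun_prop)
  rw [← integral_flip (fun S => chi x S) (fun S => chi_cases x S) _ hm]
  have e : ∀ Z : Finset (Fin n) → ℝ, X n ℓ r (fun S => lam + chi x S * Z S) =
      X n ℓ r (Z + hx r lam x) := by
    intro Z
    have e1 : (fun S => lam + chi x S * Z S) = fun S => chi x S * (chi x S * lam + Z S) := by
      funext S
      have := chi_sq x S
      linear_combination -lam * this
    rw [e1, X_sign]
    apply X_congr
    intro S hS
    simp only [Pi.add_apply, hx, if_pos hS]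
    ring
  simp_rw [e]
  exact cam (fun Z => X n ℓ r Z) (hx r lam x)

lemma integrable_gx {n : ℕ} (r : ℕ) (lam : ℝ) (x : Fin n → ℤˣ) :
    Integrable (gx r lam x) (gam (Finset (Fin n))) := by
  have e : gx r lam x = fun Z : Finset (Fin n) → ℝ => Real.exp (-((∑ S, hx r lam x S ^ 2) / 2)) *
      Real.exp (∑ S, hx r lam x S * Z S) := by
    funext Z
    unfold gx
    rw [← Real.exp_add]; congr 1; ring
  rw [e]
  exact (integrable_exp_lin _).const_mul _

lemma gx_mul {n : ℕ} (r : ℕ) (lam : ℝ) (x y : Fin n → ℤˣ) (Z : Finset (Fin n) → ℝ) :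
    gx r lam x Z * gx r lam y Z = Real.exp (-((∑ S, hx r lam x S ^ 2) / 2 + (∑ S, hx r lam y S ^ 2) / 2)) *
      Real.exp (∑ S, (hx r lam x S + hx r lam y S) * Z S) := by
  unfold gx
  rw [← Real.exp_add, ← Real.exp_add]
  congr 1
  have : ∑ S, (hx r lam x S + hx r lam y S) * Z S = ∑ S, hx r lam x S * Z S + ∑ S, hx r lam y S * Z S := by
    rw [← Finset.sum_add_distrib]
    exact Finset.sum_congr rfl fun S _ => by ring
  rw [this]; ring

lemma integrable_gx_mul {n : ℕ} (r : ℕ) (lam : ℝ) (x y : Fin n → ℤˣ) :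
    Integrable (fun Z => gx r lam x Z * gx r lam y Z) (gam (Finset (Fin n))) := by
  simp_rw [gx_mul]
  exact (integrable_exp_lin _).const_mul _

lemma integral_gx_mul {n : ℕ} (r : ℕ) (lam : ℝ) (x y : Fin n → ℤˣ) :
    ∫ Z, gx r lam x Z * gx r lam y Z ∂(gam (Finset (Fin n))) =
      Real.exp (∑ S, hx r lam x S * hx r lam y S) := by
  simp_rw [gx_mul]
  rw [integral_const_mul, integral_exp_lin, ← Real.exp_add]
  congr 1
  have : ∑ S, (hx r lam x S + hx r lam y S) ^ 2 = ∑ S, hx r lam x S ^ 2 + ∑ S, hx r lam y S ^ 2 +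
      2 * ∑ S, hx r lam x S * hx r lam y S := by
    rw [Finset.mul_sum, ← Finset.sum_add_distrib, ← Finset.sum_add_distrib]
    exact Finset.sum_congr rfl fun S _ => by ring
  rw [this]; ring

lemma integral_gx {n : ℕ} (r : ℕ) (lam : ℝ) (x : Fin n → ℤˣ) :
    ∫ Z, gx r lam x Z ∂(gam (Finset (Fin n))) = 1 := by
  have e : ∀ Z : Finset (Fin n) → ℝ, gx r lam x Z = Real.exp (-((∑ S, hx r lam x S ^ 2) / 2)) *
      Real.exp (∑ S, hx r lam x S * Z S) := by
    intro Z
    unfold gx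
    rw [← Real.exp_add]; congr 1; ring
  simp_rw [e]
  rw [integral_const_mul, integral_exp_lin, ← Real.exp_add]
  simp

lemma hx_mul {n : ℕ} (r : ℕ) (lam : ℝ) (x y : Fin n → ℤˣ) :
    ∑ S, hx r lam x S * hx r lam y S =
      lam ^ 2 * ∑ S ∈ Finset.univ.filter (fun S : Finset (Fin n) => S.card = r), chi (x * y) S := by
  rw [Finset.mul_sum, Finset.sum_filter]
  refine Finset.sum_congr rfl fun S _ => ?_
  unfold hx
  split_ifs
  · rw [chi_mul]; ring
  · ring

/-- number of sign vectors -/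
noncomputable def Nn (n : ℕ) : ℝ := (Fintype.card (Fin n → ℤˣ) : ℝ)

lemma Nn_pos (n : ℕ) : 0 < Nn n := by
  unfold Nn
  exact_mod_cast Fintype.card_pos

lemma Nn_eq (n : ℕ) : Nn n = 2 ^ n := by
  unfold Nn
  simp [Fintype.card_units_int]

/-- the averaged likelihood ratio -/
noncomputable def Lr (n r : ℕ) (lam : ℝ) (Z : Finset (Fin n) → ℝ) : ℝ :=
  (Nn n)⁻¹ * ∑ x : Fin n → ℤˣ, gx r lam x Z

lemma integrable_Lr (n r : ℕ) (lam : ℝ) : Integrable (Lr n r lam) (gam (Finset (Fin n))) :=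
  (integrable_finsetSum _ fun x _ => integrable_gx r lam x).const_mul _

lemma Lr_sq (n r : ℕ) (lam : ℝ) (Z : Finset (Fin n) → ℝ) :
    Lr n r lam Z ^ 2 = (Nn n)⁻¹ ^ 2 * ∑ x : Fin n → ℤˣ, ∑ y : Fin n → ℤˣ,
      gx r lam x Z * gx r lam y Z := by
  unfold Lr
  rw [mul_pow, sq (∑ x : Fin n → ℤˣ, gx r lam x Z), Finset.sum_mul_sum]

lemma integrable_Lr_sq (n r : ℕ) (lam : ℝ) :
    Integrable (fun Z => Lr n r lam Z ^ 2) (gam (Finset (Fin n))) := by
  simp_rw [Lr_sq]
  exact (integrable_finsetSum _ fun x _ => integrable_finsetSum _ fun y _ =>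
    integrable_gx_mul r lam x y).const_mul _

lemma integral_Lr (n r : ℕ) (lam : ℝ) : ∫ Z, Lr n r lam Z ∂(gam (Finset (Fin n))) = 1 := by
  unfold Lr
  rw [integral_const_mul, integral_finsetSum _ fun x _ => integrable_gx r lam x]
  simp_rw [integral_gx]
  rw [Finset.sum_const, Finset.card_univ, nsmul_eq_mul, mul_one]
  exact inv_mul_cancel₀ (Nn_pos n).ne'

lemma integral_Lr_sq (n r : ℕ) (lam : ℝ) :
    ∫ Z, Lr n r lam Z ^ 2 ∂(gam (Finset (Fin n))) =
      (Nn n)⁻¹ * ∑ z : Fin n → ℤˣ, Real.exp (lam ^ 2 *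
        ∑ S ∈ Finset.univ.filter (fun S : Finset (Fin n) => S.card = r), chi z S) := by
  simp_rw [Lr_sq]
  rw [integral_const_mul, integral_finsetSum _ fun x _ => integrable_finsetSum _ fun y _ =>
    integrable_gx_mul r lam x y]
  have e : ∀ x : Fin n → ℤˣ, ∫ Z, ∑ y : Fin n → ℤˣ, gx r lam x Z * gx r lam y Z ∂(gam (Finset (Fin n))) =
      ∑ z : Fin n → ℤˣ, Real.exp (lam ^ 2 *
        ∑ S ∈ Finset.univ.filter (fun S : Finset (Fin n) => S.card = r), chi z S) := by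
    intro x
    rw [integral_finsetSum _ fun y _ => integrable_gx_mul r lam x y]
    simp_rw [integral_gx_mul, hx_mul]
    exact Fintype.sum_equiv (Equiv.mulLeft x) _ _ fun y => rfl
  simp_rw [e]
  rw [Finset.sum_const, Finset.card_univ, nsmul_eq_mul]
  have := (Nn_pos n).ne'
  change (Nn n)⁻¹ ^ 2 * (Nn n * _) = _
  field_simp

lemma integrable_X (n ℓ r : ℕ) : Integrable (X n ℓ r) (gam (Finset (Fin n))) := by
  obtain ⟨K, hK0, hK⟩ := bd_crude n ℓ r
  exact (prove_MGF _ _ K hK0 (X_lip n ℓ r hK0.le hK)).1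

lemma integrable_X_sq (n ℓ r : ℕ) (c : ℝ) :
    Integrable (fun Z => (X n ℓ r Z - c) ^ 2) (gam (Finset (Fin n))) := by
  obtain ⟨K, hK0, hK⟩ := bd_crude n ℓ r
  have h := (lip_var _ K hK0 (X_lip n ℓ r hK0.le hK)).1
  set E := ∫ y, X n ℓ r y ∂(gam (Finset (Fin n))) with hE
  have e : (fun Z => (X n ℓ r Z - c) ^ 2) = fun Z => (X n ℓ r Z - E) ^ 2 +
      (2 * (E - c)) * (X n ℓ r Z - E) + (E - c) ^ 2 := by
    funext Z; ring
  rw [e]
  exact (h.add (((integrable_X n ℓ r).sub (integrable_const _)).const_mul _)).add (integrable_const _)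

lemma integrable_prod' (n ℓ r : ℕ) (lam c : ℝ) {f : (Finset (Fin n) → ℝ) → ℝ}
    (hf : Integrable f (gam (Finset (Fin n)))) (hf2 : Integrable (fun Z => f Z ^ 2) (gam (Finset (Fin n)))) :
    Integrable (fun Z => (X n ℓ r Z - c) * f Z) (gam (Finset (Fin n))) := by
  have hb := (integrable_X_sq n ℓ r c).add hf2
  refine hb.mono' (((integrable_X n ℓ r).sub (integrable_const c)).aestronglyMeasurable.mul
    hf.aestronglyMeasurable) (Filter.Eventually.of_forall fun Z => ?_)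
  simp only [Real.norm_eq_abs, Pi.add_apply]
  rw [abs_le]
  constructor <;> nlinarith [sq_nonneg (X n ℓ r Z - c + f Z), sq_nonneg (X n ℓ r Z - c - f Z)]

lemma integrable_gx_X (n ℓ r : ℕ) (lam : ℝ) (x : Fin n → ℤˣ) :
    Integrable (fun Z => gx r lam x Z * X n ℓ r Z) (gam (Finset (Fin n))) := by
  have h := integrable_prod' n ℓ r lam 0 (integrable_gx r lam x)
    (by simp_rw [sq]; exact integrable_gx_mul r lam x x)
  refine h.congr (Filter.Eventually.of_forall fun Z => ?_)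
  simp only; ring

/-- Averaged change of measure. -/
lemma mean_shift (n ℓ r : ℕ) (lam : ℝ) :
    ∫ Z, X n ℓ r (fun S => lam + Z S) ∂(gam (Finset (Fin n))) =
      ∫ Z, X n ℓ r Z * Lr n r lam Z ∂(gam (Finset (Fin n))) := by
  have e : ∀ Z, X n ℓ r Z * Lr n r lam Z = (Nn n)⁻¹ * ∑ x : Fin n → ℤˣ, gx r lam x Z * X n ℓ r Z := by
    intro Z
    unfold Lr
    rw [← Finset.sum_mul]; ring
  simp_rw [e]
  rw [integral_const_mul, integral_finsetSum _ fun x _ => integrable_gx_X n ℓ r lam x]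
  simp_rw [← shift_one]
  rw [Finset.sum_const, Finset.card_univ, nsmul_eq_mul, ← mul_assoc]
  change _ = ((Nn n)⁻¹ * Nn n) * _
  rw [inv_mul_cancel₀ (Nn_pos n).ne', one_mul]

/-- Comparison of the two expectations. -/
lemma mean_diff (n ℓ r : ℕ) (lam : ℝ) {K : ℝ} (hK0 : 0 < K) (hK : Bd n ℓ r K) :
    ∫ Z, X n ℓ r (fun S => lam + Z S) ∂(gam (Finset (Fin n))) ≤
      ∫ Z, X n ℓ r Z ∂(gam (Finset (Fin n))) + 6 * K ^ 2 +
        (∫ Z, Lr n r lam Z ^ 2 ∂(gam (Finset (Fin n)))) / 2 := by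
  rw [mean_shift]
  obtain ⟨v1, v2⟩ := lip_var _ K hK0 (X_lip n ℓ r hK0.le hK)
  set E := ∫ y, X n ℓ r y ∂(gam (Finset (Fin n))) with hE
  have hi : Integrable (fun Z => (X n ℓ r Z - E) * Lr n r lam Z) (gam (Finset (Fin n))) :=
    integrable_prod' n ℓ r lam E (integrable_Lr n r lam) (integrable_Lr_sq n r lam)
  have e1 : ∫ Z, X n ℓ r Z * Lr n r lam Z ∂(gam (Finset (Fin n))) =
      ∫ Z, (X n ℓ r Z - E) * Lr n r lam Z ∂(gam (Finset (Fin n))) + E := by
    have : ∀ Z, X n ℓ r Z * Lr n r lam Z = (X n ℓ r Z - E) * Lr n r lam Z + E * Lr n r lam Z := by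
      intro Z; ring
    simp_rw [this]
    rw [integral_add hi ((integrable_Lr n r lam).const_mul E), integral_const_mul, integral_Lr,
      mul_one]
  rw [e1]
  have e2 : ∫ Z, (X n ℓ r Z - E) * Lr n r lam Z ∂(gam (Finset (Fin n))) ≤
      ∫ Z, ((X n ℓ r Z - E) ^ 2 / 2 + Lr n r lam Z ^ 2 / 2) ∂(gam (Finset (Fin n))) := by
    refine integral_mono hi ((v1.div_const 2).add ((integrable_Lr_sq n r lam).div_const 2)) fun Z => ?_
    simp only [Pi.add_apply]
    nlinarith [sq_nonneg (X n ℓ r Z - E - Lr n r lam Z)]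
  rw [integral_add (v1.div_const 2) ((integrable_Lr_sq n r lam).div_const 2), integral_div,
    integral_div] at e2
  linarith

end Pool.Agent.N935.Kik
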