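import Pool.Agent.N935.Kik.Tr

set_option autoImplicit false
set_option linter.unusedSectionVars false

/-!
# Lower bound for the mean top eigenvalue with signal
-/

namespace Pool.Agent.N935.Kik

open MeasureTheory ProbabilityTheory Finset
open Pool.Agent.H320R2.LD
open scoped ENNReal

variable {n ℓ : ℕ}

lemma degree_ge (k : ℕ) (I : SI n ℓ) :
    ℓ.choose k * (n - ℓ).choose k ≤
      (Finset.univ.filter (fun J : SI n ℓ => (symmDiff I.1 J.1).card = 2 * k)).card := by
  have h1 : ((I.1.powersetCard k) ×ˢ ((Finset.univ \ I.1).powersetCard k)).card =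
      ℓ.choose k * (n - ℓ).choose k := by
    rw [Finset.card_product, Finset.card_powersetCard, Finset.card_powersetCard, I.2,
      Finset.card_sdiff_of_subset (Finset.subset_univ _), I.2, Finset.card_univ, Fintype.card_fin]
  rw [← h1]
  apply Finset.card_le_card_of_surjOn (fun J : SI n ℓ => (I.1 \ J.1, J.1 \ I.1))
  rintro ⟨A, B⟩ hAB
  rw [Finset.mem_coe, Finset.mem_product] at hAB
  simp only [Finset.mem_powersetCard] at hAB
  obtain ⟨⟨hA, hAc⟩, ⟨hB, hBc⟩⟩ := hAB
  have hBI : ∀ x ∈ B, x ∉ I.1 := fun x hx => (Finset.mem_sdiff.mp (hB hx)).2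
  have hdis : Disjoint (I.1 \ A) B := by
    rw [Finset.disjoint_left]
    intro x hx hx'
    exact hBI x hx' (Finset.mem_sdiff.mp hx).1
  have hJc : ((I.1 \ A) ∪ B).card = ℓ := by
    rw [Finset.card_union_of_disjoint hdis, Finset.card_sdiff_of_subset hA, I.2, hAc, hBc]
    have : k ≤ ℓ := by rw [← hAc, ← I.2]; exact Finset.card_le_card hA
    omega
  have e1 : I.1 \ ((I.1 \ A) ∪ B) = A := by
    ext x
    simp only [Finset.mem_sdiff, Finset.mem_union]
    constructor
    · rintro ⟨h1, h2⟩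
      by_contra h
      exact h2 (Or.inl ⟨h1, h⟩)
    · intro h
      refine ⟨hA h, ?_⟩
      rintro (⟨_, h2⟩ | h2)
      · exact h2 h
      · exact hBI x h2 (hA h)
  have e2 : ((I.1 \ A) ∪ B) \ I.1 = B := by
    ext x
    simp only [Finset.mem_sdiff, Finset.mem_union]
    constructor
    · rintro ⟨h1 | h1, h2⟩
      · exact absurd h1.1 h2
      · exact h1
    · intro h
      exact ⟨Or.inr h, hBI x h⟩
  refine ⟨⟨(I.1 \ A) ∪ B, hJc⟩, ?_, ?_⟩
  · simp only [Finset.coe_filter, Finset.mem_univ, true_and, Set.mem_ofPred_eq]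
    rw [symmDiff_def, Finset.sup_eq_union, Finset.card_union_of_disjoint disjoint_sdiff_sdiff, e1, e2,
      hAc, hBc]
    ring
  · simp only [e1, e2]

lemma integral_coord (S : Finset (Fin n)) : ∫ Z : Finset (Fin n) → ℝ, Z S ∂(gam (Finset (Fin n))) = 0 := by
  have h := integral_HP (V := Finset (Fin n)) (fun T => if T = S then 1 else 0)
  have e : ∀ Z : Finset (Fin n) → ℝ, HP (fun T => if T = S then 1 else 0) Z = Z S := by
    intro Z
    unfold HP
    rw [Finset.prod_eq_single S]
    · simp [HS.he]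
    · intro T _ hT; simp [hT, HS.he]
    · intro h; exact absurd (Finset.mem_univ _) h
  simp_rw [e] at h
  rw [h, if_neg]
  intro h0
  have := h0 S
  simp at this

lemma integrable_X_shift (r : ℕ) (lam : ℝ) :
    Integrable (fun Z => X n ℓ r (fun S => lam + Z S)) (gam (Finset (Fin n))) := by
  obtain ⟨K, hK0, hK⟩ := bd_crude n ℓ r
  have hl := X_lip n ℓ r hK0.le hK
  have : Lip K (fun Z : Finset (Fin n) → ℝ => X n ℓ r (fun S => lam + Z S)) := by
    intro x y
    have h := hl (fun S => lam + x S) (fun S => lam + y S)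
    have e : (fun S => lam + x S) - (fun S => lam + y S) = x - y := by
      funext S; simp
    rw [e] at h
    exact h
  exact (prove_MGF _ _ K hK0 this).1

lemma mean_X_ge (k : ℕ) (hn : ℓ ≤ n) (lam : ℝ) (hlam : 0 ≤ lam) :
    lam * (ℓ.choose k * (n - ℓ).choose k : ℕ) ≤
      ∫ Z, X n ℓ (2 * k) (fun S => lam + Z S) ∂(gam (Finset (Fin n))) := by
  classical
  obtain ⟨I0, _, hI0⟩ := Finset.exists_subset_card_eq (s := (Finset.univ : Finset (Fin n)))
    (n := ℓ) (by simpa using hn)
  haveI : Nonempty (SI n ℓ) := ⟨⟨I0, hI0⟩⟩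
  set N : ℝ := (Fintype.card (SI n ℓ) : ℝ) with hN
  have hN0 : 0 < N := by rw [hN]; exact_mod_cast Fintype.card_pos
  set c : ℝ := Real.sqrt (1 / N) with hc
  have hcc : c * c = 1 / N := Real.mul_self_sqrt (by positivity)
  set v : SI n ℓ → ℝ := fun _ => c with hv
  have hvv : dotProduct v v = 1 := by
    simp only [dotProduct, hv, hcc, Finset.sum_const, Finset.card_univ, nsmul_eq_mul]
    change N * (1 / N) = 1
    field_simp
  have hpt : ∀ Z : Finset (Fin n) → ℝ, qf n ℓ (2 * k) (fun S => lam + Z S) v ≤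
      X n ℓ (2 * k) (fun S => lam + Z S) := fun Z => le_X n ℓ (2 * k) _ v hvv
  have hqf : ∀ Z : Finset (Fin n) → ℝ, qf n ℓ (2 * k) (fun S => lam + Z S) v =
      ∑ I : SI n ℓ, ∑ J : SI n ℓ, (if (symmDiff I.1 J.1).card = 2 * k then
        (lam + Z (symmDiff I.1 J.1)) * (1 / N) else 0) := by
    intro Z
    unfold qf
    refine Finset.sum_congr rfl fun I _ => Finset.sum_congr rfl fun J _ => ?_
    split_ifs
    · simp only [hv, hcc]
    · rfl
  have hint1 : ∀ S : Finset (Fin n), Integrable (fun Z : Finset (Fin n) → ℝ => (lam + Z S) * (1 / N))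
      (gam (Finset (Fin n))) := fun S =>
    (((PolyF.const lam).add (PolyF.coord S)).mul (PolyF.const (1 / N))).integrable
  have hint2 : ∀ I J : SI n ℓ, Integrable (fun Z : Finset (Fin n) → ℝ =>
      (if (symmDiff I.1 J.1).card = 2 * k then (lam + Z (symmDiff I.1 J.1)) * (1 / N) else 0))
      (gam (Finset (Fin n))) := by
    intro I J
    split_ifs
    · exact hint1 _
    · exact integrable_zero _ _ _
  have hval : ∀ I J : SI n ℓ, ∫ Z : Finset (Fin n) → ℝ,
      (if (symmDiff I.1 J.1).card = 2 * k then (lam + Z (symmDiff I.1 J.1)) * (1 / N) else 0)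
      ∂(gam (Finset (Fin n))) = if (symmDiff I.1 J.1).card = 2 * k then lam * (1 / N) else 0 := by
    intro I J
    split_ifs
    · rw [integral_mul_const, integral_add (integrable_const _) (PolyF.coord _).integrable,
        integral_coord]
      simp
    · simp
  have hmean : ∫ Z, qf n ℓ (2 * k) (fun S => lam + Z S) v ∂(gam (Finset (Fin n))) =
      ∑ I : SI n ℓ, ∑ J : SI n ℓ, (if (symmDiff I.1 J.1).card = 2 * k then lam * (1 / N) else 0) := by
    simp_rw [hqf]
    rw [integral_finsetSum _ fun I _ => integrable_finsetSum _ fun J _ => hint2 I J]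
    refine Finset.sum_congr rfl fun I _ => ?_
    rw [integral_finsetSum _ fun J _ => hint2 I J]
    exact Finset.sum_congr rfl fun J _ => hval I J
  have hiq : Integrable (fun Z => qf n ℓ (2 * k) (fun S => lam + Z S) v) (gam (Finset (Fin n))) := by
    simp_rw [hqf]
    exact integrable_finsetSum _ fun I _ => integrable_finsetSum _ fun J _ => hint2 I J
  have h2 := integral_mono hiq (integrable_X_shift (2 * k) lam) hpt
  refine le_trans ?_ h2
  rw [hmean]
  have h3 : ∀ I : SI n ℓ, (ℓ.choose k * (n - ℓ).choose k : ℕ) * (lam * (1 / N)) ≤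
      ∑ J : SI n ℓ, (if (symmDiff I.1 J.1).card = 2 * k then lam * (1 / N) else 0) := by
    intro I
    rw [← Finset.sum_filter, Finset.sum_const, nsmul_eq_mul]
    apply mul_le_mul_of_nonneg_right _ (by positivity)
    exact_mod_cast degree_ge k I
  calc lam * (ℓ.choose k * (n - ℓ).choose k : ℕ) =
        ∑ _I : SI n ℓ, (ℓ.choose k * (n - ℓ).choose k : ℕ) * (lam * (1 / N)) := by
        rw [Finset.sum_const, Finset.card_univ, nsmul_eq_mul]
        change _ = N * _
        field_simp
    _ ≤ _ := Finset.sum_le_sum fun I _ => h3 I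

/-- positivity of the mean noise eigenvalue -/
lemma mean_X_pos (k : ℕ) (hk : 1 ≤ k) (hℓ : k ≤ ℓ) (hn : ℓ + k ≤ n) :
    0 < ∫ Z, X n ℓ (2 * k) Z ∂(gam (Finset (Fin n))) := by
  classical
  obtain ⟨I0, _, hI0⟩ := Finset.exists_subset_card_eq (s := (Finset.univ : Finset (Fin n)))
    (n := ℓ) (by simp; omega)
  have hd := degree_ge k (⟨I0, hI0⟩ : SI n ℓ)
  have hpos : 0 < ℓ.choose k * (n - ℓ).choose k :=
    Nat.mul_pos (Nat.choose_pos hℓ) (Nat.choose_pos (by omega))
  obtain ⟨J, hJ⟩ := Finset.card_pos.mp (lt_of_lt_of_le hpos hd)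
  have hJ2 := (Finset.mem_filter.mp hJ).2
  set S := symmDiff I0 J.1 with hS
  have h1 : ∀ Z : Finset (Fin n) → ℝ, Z S ≤ X n ℓ (2 * k) Z := fun Z =>
    entry_le_X n ℓ (2 * k) (by omega) Z ⟨I0, hI0⟩ J hJ2
  have h0 : ∀ Z : Finset (Fin n) → ℝ, 0 ≤ X n ℓ (2 * k) Z := fun Z =>
    X_nonneg n ℓ (2 * k) (by omega) (by omega) Z
  set B : Set (Finset (Fin n) → ℝ) := Set.univ.pi (fun T => if T = S then Set.Ioi 1 else Set.univ) with hB
  have hBo : IsOpen B := by
    rw [hB]
    apply isOpen_set_pi Set.finite_univ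
    intro T _
    split_ifs
    · exact isOpen_Ioi
    · exact isOpen_univ
  have hBpos : 0 < (gam (Finset (Fin n))).real B := by
    have e1 : (gam (Finset (Fin n))) B = ∏ T : Finset (Fin n),
        (gaussianReal 0 1) (if T = S then Set.Ioi 1 else Set.univ) := by
      rw [hB]; exact Measure.pi_pi _ _
    rw [measureReal_def, e1, ENNReal.toReal_prod]
    apply Finset.prod_pos
    intro T _
    have : Measure.IsOpenPosMeasure (gaussianReal 0 1) :=
      (gaussianReal_absolutelyContinuous' 0 one_ne_zero).isOpenPosMeasure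
    split_ifs
    · have h3 : 0 < (gaussianReal 0 1) (Set.Ioi (1:ℝ)) := isOpen_Ioi.measure_pos _ ⟨2, by simp⟩
      exact ENNReal.toReal_pos h3.ne' (measure_ne_top _ _)
    · simp
  have hpt : ∀ Z : Finset (Fin n) → ℝ, B.indicator (fun _ => (1:ℝ)) Z ≤ X n ℓ (2 * k) Z := by
    intro Z
    by_cases hZ : Z ∈ B
    · rw [Set.indicator_of_mem hZ]
      have := hZ S (Set.mem_univ _)
      simp only [if_true] at this
      have h4 : (1:ℝ) < Z S := this
      exact h4.le.trans (h1 Z)
    · rw [Set.indicator_of_notMem hZ]; exact h0 Z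
  have hint : Integrable (B.indicator (fun _ : Finset (Fin n) → ℝ => (1:ℝ))) (gam (Finset (Fin n))) :=
    (integrable_const (1:ℝ)).indicator hBo.measurableSet
  calc (0:ℝ) < (gam (Finset (Fin n))).real B := hBpos
    _ = ∫ Z, B.indicator (fun _ => (1:ℝ)) Z ∂(gam (Finset (Fin n))) := by
        rw [integral_indicator_const _ hBo.measurableSet, smul_eq_mul, mul_one]
    _ ≤ _ := integral_mono hint (integrable_X n ℓ (2 * k)) hpt

end Pool.Agent.N935.Kik
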