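import Pool.Agent.N935.Kik.Fin2

set_option autoImplicit false

/-!
# `r = 2`: no gap below `μ = 1`
-/

namespace Pool.Agent.N935.Kik

open MeasureTheory ProbabilityTheory Finset
open Pool.Agent.H320R2.LD
open scoped ENNReal

/-- For `r = 2`, `0 ≤ μ < 1` and every `ℓ ≥ 1`: no gap. -/
theorem no_gap_two' (ℓ : ℕ) (hℓ : 1 ≤ ℓ) (μ : ℝ) (hμ0 : 0 ≤ μ) (hμ1 : μ < 1) (ε : ℝ) (hε : 0 < ε) :
    ∀ᶠ n : ℕ in Filter.atTop,
      (∫ Z, X n ℓ 2 (fun S => μ * (n:ℝ) ^ (-((2:ℕ):ℝ) / 4) + Z S) ∂(gam (Finset (Fin n)))) /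
        (∫ Z, X n ℓ 2 Z ∂(gam (Finset (Fin n)))) < 1 + ε := by
  set c : ℝ := μ ^ 2 / 2 with hc
  have hc1 : c < 1 / 2 := by rw [hc]; nlinarith
  set D : ℝ := 6 * (2 * (ℓ:ℝ)) ^ 2 + Cc c / 2 with hD
  have hCc : 0 ≤ Cc c := integral_nonneg fun g => (Real.exp_pos _).le
  have hD0 : 0 < D := by
    have : (1:ℝ) ≤ ℓ := by exact_mod_cast hℓ
    have h2 : 0 < (2 * (ℓ:ℝ)) ^ 2 := by positivity
    rw [hD]; linarith
  obtain ⟨n0, hn0⟩ := mean_growth ℓ hℓ (4 * D / ε) (by positivity)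
  filter_upwards [Filter.eventually_ge_atTop (max n0 1)] with n hn
  have hn1 : n0 ≤ n := le_trans (le_max_left _ _) hn
  have hn2 : 1 ≤ n := le_trans (le_max_right _ _) hn
  have hnpos : (0:ℝ) < n := by exact_mod_cast hn2
  have h1 := hn0 n hn1
  set F0 := ∫ Z, X n ℓ 2 Z ∂(gam (Finset (Fin n))) with hF0
  set lam : ℝ := μ * (n:ℝ) ^ (-((2:ℕ):ℝ) / 4) with hlam
  have hl2 : (n:ℝ) * lam ^ 2 ≤ 2 * c := by
    have e1 : ((n:ℝ) ^ (-((2:ℕ):ℝ) / 4)) ^ 2 = (n:ℝ)⁻¹ := by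
      rw [← Real.rpow_natCast, ← Real.rpow_mul hnpos.le]
      norm_num
      exact Real.rpow_neg_one _
    rw [hlam, mul_pow, e1, hc]
    field_simp
    norm_num
  have h2 := mean_diff n ℓ 2 lam (K := 2 * ℓ) (by
    have : (1:ℝ) ≤ ℓ := by exact_mod_cast hℓ
    linarith) (bd_two n ℓ)
  have h3 := Lr_two_le n lam c hc1 hl2
  have hF0pos : 0 < F0 := lt_of_lt_of_le (by positivity) h1
  rw [div_lt_iff₀ hF0pos]
  have h4 : D < ε * F0 := by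
    have : 2 * D / ε ≤ F0 := by
      have e : 4 * D / ε / 2 = 2 * D / ε := by ring
      rw [← e]; exact h1
    rw [div_le_iff₀ hε] at this
    nlinarith
  calc _ ≤ F0 + 6 * (2 * (ℓ:ℝ)) ^ 2 + (∫ Z, Lr n 2 lam Z ^ 2 ∂(gam (Finset (Fin n)))) / 2 := h2
    _ ≤ F0 + D := by rw [hD]; linarith
    _ < (1 + ε) * F0 := by linarith

end Pool.Agent.N935.Kik
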