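import Pool.Agent.N935.Kik.Herm

set_option autoImplicit false
set_option linter.unusedSectionVars false

/-!
# Moments of the Kikuchi matrix: recursion and combinatorial estimates
-/

namespace Pool.Agent.N935.Kik

open MeasureTheory ProbabilityTheory Finset
open Pool.Agent.H320R2.LD
open scoped ENNReal

variable {n ℓ : ℕ}

/-- `(M^m w)_I` -/
noncomputable def U (r : ℕ) (w : SI n ℓ → ℝ) : ℕ → SI n ℓ → (Finset (Fin n) → ℝ) → ℝ
  | 0, I, _ => w I
  | (m + 1), I, Z => ∑ J : SI n ℓ,
      if (symmDiff I.1 J.1).card = r then Z (symmDiff I.1 J.1) * U r w m J Z else 0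

lemma U_polyF (r : ℕ) (w : SI n ℓ → ℝ) (m : ℕ) (I : SI n ℓ) : PolyF (U r w m I) := by
  induction m generalizing I with
  | zero => exact PolyF.const (w I)
  | succ m ih =>
    have : U r w (m + 1) I = fun Z => ∑ J : SI n ℓ,
      if (symmDiff I.1 J.1).card = r then Z (symmDiff I.1 J.1) * U r w m J Z else 0 := by
      funext Z; rfl
    rw [this]
    refine PolyF.sum _ fun J _ => ?_
    split_ifs
    · exact (PolyF.coord _).mul (ih J)
    · exact PolyF.const 0

/-- mixed moment -/
noncomputable def T (r : ℕ) (w : SI n ℓ → ℝ) (m : ℕ) (I : SI n ℓ) (o : Finset (Fin n) → ℕ) : ℝ :=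
  ∫ Z, HP o Z * U r w m I Z ∂(gam (Finset (Fin n)))

lemma T_succ (r : ℕ) (w : SI n ℓ → ℝ) (m : ℕ) (I : SI n ℓ) (o : Finset (Fin n) → ℕ) :
    T r w (m + 1) I o = ∑ J : SI n ℓ, if (symmDiff I.1 J.1).card = r then
      T r w m J (Function.update o (symmDiff I.1 J.1) (o (symmDiff I.1 J.1) + 1)) +
      (o (symmDiff I.1 J.1) : ℝ) *
        T r w m J (Function.update o (symmDiff I.1 J.1) (o (symmDiff I.1 J.1) - 1)) else 0 := by
  unfold T
  have e : ∀ Z : Finset (Fin n) → ℝ, HP o Z * U r w (m + 1) I Z = ∑ J : SI n ℓ,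
      if (symmDiff I.1 J.1).card = r then
        HP (Function.update o (symmDiff I.1 J.1) (o (symmDiff I.1 J.1) + 1)) Z * U r w m J Z +
        (o (symmDiff I.1 J.1) : ℝ) *
        (HP (Function.update o (symmDiff I.1 J.1) (o (symmDiff I.1 J.1) - 1)) Z * U r w m J Z)
      else 0 := by
    intro Z
    rw [U, Finset.mul_sum]
    refine Finset.sum_congr rfl fun J _ => ?_
    split_ifs
    · rw [← mul_assoc, mul_comm (HP o Z), HP_mul]; ring
    · simp
  simp_rw [e]
  have hi : ∀ (o' : Finset (Fin n) → ℕ) (J : SI n ℓ), Integrable (fun Z => HP o' Z * U r w m J Z)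
      (gam (Finset (Fin n))) := fun o' J => ((HP_polyF o').mul (U_polyF r w m J)).integrable
  rw [integral_finsetSum]
  · refine Finset.sum_congr rfl fun J _ => ?_
    split_ifs
    · rw [integral_add (hi _ _) ((hi _ _).const_mul _), integral_const_mul]
    · simp
  · intro J _
    split_ifs
    · exact (hi _ _).add ((hi _ _).const_mul _)
    · exact integrable_zero _ _ _

lemma T_zero (r : ℕ) (w : SI n ℓ → ℝ) (I : SI n ℓ) (o : Finset (Fin n) → ℕ) :
    T r w 0 I o = if (∀ S, o S = 0) then w I else 0 := by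
  unfold T
  simp only [U]
  rw [integral_mul_const, integral_HP]
  split_ifs <;> simp

/-! ## Combinatorial quantities -/

/-- number of open instances -/
def qq (o : Finset (Fin n) → ℕ) : ℕ := ∑ S, o S

/-- number of open instances containing a label -/
def mm (o : Finset (Fin n) → ℕ) (x : Fin n) : ℕ := ∑ S, if x ∈ S then o S else 0

/-- the excess -/
def ex (I : SI n ℓ) (o : Finset (Fin n) → ℕ) : ℕ :=
  ∑ x, if x ∈ I.1 then mm o x - 1 else mm o x - 2

lemma qq_up (o : Finset (Fin n) → ℕ) (S : Finset (Fin n)) :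
    qq (Function.update o S (o S + 1)) = qq o + 1 := by
  unfold qq
  rw [← Finset.add_sum_erase _ _ (Finset.mem_univ S), ← Finset.add_sum_erase _ o (Finset.mem_univ S)]
  simp only [Function.update_self]
  have : ∑ x ∈ Finset.univ.erase S, Function.update o S (o S + 1) x = ∑ x ∈ Finset.univ.erase S, o x :=
    Finset.sum_congr rfl fun x hx => Function.update_of_ne (Finset.ne_of_mem_erase hx) _ _
  omega

lemma qq_down (o : Finset (Fin n) → ℕ) (S : Finset (Fin n)) (h : o S ≠ 0) :
    qq (Function.update o S (o S - 1)) + 1 = qq o := by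
  unfold qq
  rw [← Finset.add_sum_erase _ _ (Finset.mem_univ S), ← Finset.add_sum_erase _ o (Finset.mem_univ S)]
  simp only [Function.update_self]
  have : ∑ x ∈ Finset.univ.erase S, Function.update o S (o S - 1) x = ∑ x ∈ Finset.univ.erase S, o x :=
    Finset.sum_congr rfl fun x hx => Function.update_of_ne (Finset.ne_of_mem_erase hx) _ _
  omega

lemma mm_up (o : Finset (Fin n) → ℕ) (S : Finset (Fin n)) (x : Fin n) :
    mm (Function.update o S (o S + 1)) x = mm o x + if x ∈ S then 1 else 0 := by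
  unfold mm
  rw [← Finset.add_sum_erase _ _ (Finset.mem_univ S),
    ← Finset.add_sum_erase _ (fun S => if x ∈ S then o S else 0) (Finset.mem_univ S)]
  simp only [Function.update_self]
  have : ∑ T ∈ Finset.univ.erase S, (if x ∈ T then Function.update o S (o S + 1) T else 0) =
      ∑ T ∈ Finset.univ.erase S, (if x ∈ T then o T else 0) :=
    Finset.sum_congr rfl fun T hT => by rw [Function.update_of_ne (Finset.ne_of_mem_erase hT)]
  split_ifs <;> omega

lemma mm_down (o : Finset (Fin n) → ℕ) (S : Finset (Fin n)) (h : o S ≠ 0) (x : Fin n) :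
    mm (Function.update o S (o S - 1)) x + (if x ∈ S then 1 else 0) = mm o x := by
  unfold mm
  rw [← Finset.add_sum_erase _ _ (Finset.mem_univ S),
    ← Finset.add_sum_erase _ (fun S => if x ∈ S then o S else 0) (Finset.mem_univ S)]
  simp only [Function.update_self]
  have : ∑ T ∈ Finset.univ.erase S, (if x ∈ T then Function.update o S (o S - 1) T else 0) =
      ∑ T ∈ Finset.univ.erase S, (if x ∈ T then o T else 0) :=
    Finset.sum_congr rfl fun T hT => by rw [Function.update_of_ne (Finset.ne_of_mem_erase hT)]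
  split_ifs <;> omega

lemma ex_down (I J : SI n ℓ) (o : Finset (Fin n) → ℕ) (h : o (symmDiff I.1 J.1) ≠ 0) :
    ex J (Function.update o (symmDiff I.1 J.1) (o (symmDiff I.1 J.1) - 1)) ≤ ex I o := by
  unfold ex
  refine Finset.sum_le_sum fun x _ => ?_
  have hm := mm_down o _ h x
  by_cases h1 : x ∈ I.1 <;> by_cases h2 : x ∈ J.1 <;>
    simp only [h1, h2, Finset.mem_symmDiff, if_true, if_false, not_true_eq_false, not_false_eq_true,
      and_true, and_false, or_false, false_or, and_self, or_self] at hm ⊢ <;> omega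

lemma ex_up (I J : SI n ℓ) (o : Finset (Fin n) → ℕ) :
    ex J (Function.update o (symmDiff I.1 J.1) (o (symmDiff I.1 J.1) + 1)) ≤
      ex I o + 2 * ((J.1 \ I.1).filter (fun x => 1 ≤ mm o x)).card := by
  unfold ex
  have e : 2 * ((J.1 \ I.1).filter (fun x => 1 ≤ mm o x)).card =
      ∑ x : Fin n, if (x ∈ J.1 ∧ x ∉ I.1 ∧ 1 ≤ mm o x) then 2 else 0 := by
    rw [← Finset.sum_filter, Finset.sum_const, smul_eq_mul, mul_comm]
    congr 2
    ext x
    simp only [Finset.mem_filter, Finset.mem_sdiff, Finset.mem_univ, true_and]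
    tauto
  rw [e, ← Finset.sum_add_distrib]
  refine Finset.sum_le_sum fun x _ => ?_
  have hm := mm_up o (symmDiff I.1 J.1) x
  by_cases h1 : x ∈ I.1 <;> by_cases h2 : x ∈ J.1 <;>
    simp only [h1, h2, Finset.mem_symmDiff, if_true, if_false, not_true_eq_false, not_false_eq_true,
      and_true, and_false, or_false, false_or, and_self, or_self, true_and, false_and] at hm ⊢
  · omega
  · omega
  · split_ifs <;> omega
  · omega

lemma card_sdiff_eq (k : ℕ) (I J : SI n ℓ) (h : (symmDiff I.1 J.1).card = 2 * k) :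
    (I.1 \ J.1).card = k ∧ (J.1 \ I.1).card = k := by
  have h1 : (I.1 \ J.1).card = (J.1 \ I.1).card := by
    have e1 := Finset.card_sdiff_add_card_inter I.1 J.1
    have e2 := Finset.card_sdiff_add_card_inter J.1 I.1
    rw [Finset.inter_comm] at e2
    rw [I.2] at e1; rw [J.2] at e2
    omega
  have h2 : (I.1 \ J.1).card + (J.1 \ I.1).card = 2 * k := by
    rw [← h, symmDiff_def, Finset.sup_eq_union, Finset.card_union_of_disjoint disjoint_sdiff_sdiff]
  omega

/-- the number of usable open instances -/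
lemma usable (k : ℕ) (I : SI n ℓ) (o : Finset (Fin n) → ℕ) :
    k * (∑ J : SI n ℓ, if (symmDiff I.1 J.1).card = 2 * k then o (symmDiff I.1 J.1) else 0) ≤
      ℓ + ex I o := by
  have h1 : k * (∑ J : SI n ℓ, if (symmDiff I.1 J.1).card = 2 * k then o (symmDiff I.1 J.1) else 0) ≤
      ∑ x ∈ I.1, mm o x := by
    rw [Finset.mul_sum]
    have h2 : ∀ J : SI n ℓ, k * (if (symmDiff I.1 J.1).card = 2 * k then o (symmDiff I.1 J.1) else 0) ≤
        ∑ x ∈ I.1, if x ∈ symmDiff I.1 J.1 then o (symmDiff I.1 J.1) else 0 := by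
      intro J
      split_ifs with h
      · rw [← Finset.sum_filter, Finset.sum_const, smul_eq_mul]
        apply Nat.mul_le_mul_right
        have : I.1.filter (fun x => x ∈ symmDiff I.1 J.1) = I.1 \ J.1 := by
          ext x
          simp only [Finset.mem_filter, Finset.mem_symmDiff, Finset.mem_sdiff]
          tauto
        rw [this, (card_sdiff_eq k I J h).1]
      · simp
    refine (Finset.sum_le_sum fun J _ => h2 J).trans ?_
    rw [Finset.sum_comm]
    refine Finset.sum_le_sum fun x _ => ?_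
    unfold mm
    have hinj : Function.Injective (fun J : SI n ℓ => symmDiff I.1 J.1) := fun J J' h =>
      Subtype.ext (symmDiff_right_injective I.1 h)
    rw [← Finset.sum_image (s := Finset.univ) (g := fun J : SI n ℓ => symmDiff I.1 J.1)
      (f := fun S : Finset (Fin n) => if x ∈ S then o S else 0) (fun a _ b _ h => hinj h)]
    exact Finset.sum_le_sum_of_subset (Finset.subset_univ _)
  have h3 : ∑ x ∈ I.1, mm o x ≤ ℓ + ex I o := by
    calc ∑ x ∈ I.1, mm o x ≤ ∑ x ∈ I.1, (1 + (mm o x - 1)) := Finset.sum_le_sum fun x _ => by omega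
      _ = ℓ + ∑ x ∈ I.1, (mm o x - 1) := by
        rw [Finset.sum_add_distrib, Finset.sum_const, I.2]; simp
      _ ≤ ℓ + ex I o := by
        apply Nat.add_le_add_left
        unfold ex
        calc ∑ x ∈ I.1, (mm o x - 1) = ∑ x ∈ I.1, (if x ∈ I.1 then mm o x - 1 else mm o x - 2) :=
              Finset.sum_congr rfl fun x hx => by rw [if_pos hx]
          _ ≤ _ := Finset.sum_le_sum_of_subset (Finset.subset_univ _)
  exact h1.trans h3

lemma esymm_le (w : Fin n → ℝ) (hw : ∀ x, 0 ≤ w x) (s : Finset (Fin n)) (k : ℕ) :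
    ∑ B ∈ s.powersetCard k, ∏ x ∈ B, w x ≤ (∑ x ∈ s, w x) ^ k := by
  induction s using Finset.induction_on generalizing k with
  | empty =>
    rcases k with _ | k
    · simp
    · have : (∅ : Finset (Fin n)).powersetCard (k + 1) = ∅ := by
        rw [Finset.powersetCard_eq_empty]; simp
      rw [this]; simp
  | insert a s ha ih =>
    rcases k with _ | k
    · simp
    · rw [Finset.powersetCard_succ_insert ha, Finset.sum_union, Finset.sum_image,
        Finset.sum_insert ha]
      · have e : ∑ B ∈ s.powersetCard k, ∏ i ∈ insert a B, w i =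
            w a * ∑ B ∈ s.powersetCard k, ∏ i ∈ B, w i := by
          rw [Finset.mul_sum]
          refine Finset.sum_congr rfl fun B hB => ?_
          rw [Finset.prod_insert fun h => ha ((Finset.mem_powersetCard.mp hB).1 h)]
        rw [e]
        have h1 := ih (k + 1)
        have h2 := ih k
        have hs : 0 ≤ ∑ x ∈ s, w x := Finset.sum_nonneg fun x _ => hw x
        have h3 := mul_le_mul_of_nonneg_left h2 (hw a)
        have h4 : (∑ x ∈ s, w x) ^ k ≤ (w a + ∑ x ∈ s, w x) ^ k :=
          pow_le_pow_left₀ hs (by linarith [hw a]) k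
        calc _ ≤ (∑ x ∈ s, w x) ^ (k + 1) + w a * (∑ x ∈ s, w x) ^ k := add_le_add h1 h3
          _ = (w a + ∑ x ∈ s, w x) * (∑ x ∈ s, w x) ^ k := by ring
          _ ≤ (w a + ∑ x ∈ s, w x) * (w a + ∑ x ∈ s, w x) ^ k :=
            mul_le_mul_of_nonneg_left h4 (by linarith [hw a])
          _ = _ := by ring
      · intro T hT T' hT' h
        have h1 : a ∉ T := fun h => ha ((Finset.mem_powersetCard.mp hT).1 h)
        have h2 : a ∉ T' := fun h => ha ((Finset.mem_powersetCard.mp hT').1 h)
        have h3 := congrArg (fun U => Finset.erase U a) h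
        simpa [Finset.erase_insert h1, Finset.erase_insert h2] using h3
      · rw [Finset.disjoint_left]
        intro T hT hT'
        obtain ⟨U, _, rfl⟩ := Finset.mem_image.mp hT'
        exact ha ((Finset.mem_powersetCard.mp hT).1 (Finset.mem_insert_self a U))

/-- weighted count of opening steps -/
lemma opening (k : ℕ) (I : SI n ℓ) (D : Fin n → Prop) [DecidablePred D] (y : ℝ) (hy : 0 ≤ y) :
    (∑ J : SI n ℓ, if (symmDiff I.1 J.1).card = 2 * k then y ^ ((J.1 \ I.1).filter D).card else 0) ≤
      (ℓ.choose k : ℝ) * (∑ x : Fin n, if D x then y else 1) ^ k := by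
  set w : Fin n → ℝ := fun x => if D x then y else 1 with hw
  have hw0 : ∀ x, 0 ≤ w x := by intro x; simp only [hw]; split_ifs <;> linarith
  have hprod : ∀ B : Finset (Fin n), ∏ x ∈ B, w x = y ^ (B.filter D).card := by
    intro B
    simp only [hw]
    rw [Finset.prod_ite]
    simp
  have h1 : (∑ J : SI n ℓ, if (symmDiff I.1 J.1).card = 2 * k then y ^ ((J.1 \ I.1).filter D).card else 0) =
      ∑ J ∈ Finset.univ.filter (fun J : SI n ℓ => (symmDiff I.1 J.1).card = 2 * k),
        (fun p : Finset (Fin n) × Finset (Fin n) => ∏ x ∈ p.2, w x) (I.1 \ J.1, J.1 \ I.1) := by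
    rw [Finset.sum_filter]
    refine Finset.sum_congr rfl fun J _ => ?_
    simp only [hprod]
  rw [h1]
  have hinj : Set.InjOn (fun J : SI n ℓ => ((I.1 \ J.1, J.1 \ I.1) : Finset (Fin n) × Finset (Fin n)))
      (Finset.univ.filter (fun J : SI n ℓ => (symmDiff I.1 J.1).card = 2 * k) : Set (SI n ℓ)) := by
    intro J _ J' _ h
    simp only [Prod.mk.injEq] at h
    apply Subtype.ext
    have e1 : symmDiff I.1 J.1 = symmDiff I.1 J'.1 := by
      rw [symmDiff_def, symmDiff_def, h.1, h.2]
    exact symmDiff_right_injective I.1 e1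
  rw [← Finset.sum_image (f := fun p : Finset (Fin n) × Finset (Fin n) => ∏ x ∈ p.2, w x) hinj]
  calc _ ≤ ∑ p ∈ (I.1.powersetCard k) ×ˢ (Finset.univ.powersetCard k), ∏ x ∈ p.2, w x := by
        apply Finset.sum_le_sum_of_subset_of_nonneg
        · intro p hp
          obtain ⟨J, hJ, rfl⟩ := Finset.mem_image.mp hp
          have hJ2 := (Finset.mem_filter.mp hJ).2
          obtain ⟨c1, c2⟩ := card_sdiff_eq k I J hJ2
          rw [Finset.mem_product]
          simp only [Finset.mem_powersetCard]
          exact ⟨⟨Finset.sdiff_subset, c1⟩, ⟨Finset.subset_univ _, c2⟩⟩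
        · intro p _ _
          exact Finset.prod_nonneg fun x _ => hw0 x
    _ = (ℓ.choose k : ℝ) * ∑ B ∈ (Finset.univ : Finset (Fin n)).powersetCard k, ∏ x ∈ B, w x := by
        rw [Finset.sum_product]
        simp only [Finset.sum_const, Finset.card_powersetCard, I.2, nsmul_eq_mul]
    _ ≤ _ := mul_le_mul_of_nonneg_left (esymm_le w hw0 Finset.univ k) (by positivity)

lemma sum_mm (k : ℕ) (o : Finset (Fin n) → ℕ) (ho : ∀ S, o S ≠ 0 → S.card = 2 * k) :
    ∑ x, mm o x = 2 * k * qq o := by
  unfold mm qq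
  rw [Finset.sum_comm, Finset.mul_sum]
  refine Finset.sum_congr rfl fun S _ => ?_
  rw [Finset.sum_ite_mem, Finset.univ_inter, Finset.sum_const, smul_eq_mul]
  by_cases h : o S = 0
  · simp [h]
  · rw [ho S h]

lemma sum_w_le (k : ℕ) (o : Finset (Fin n) → ℕ) (ho : ∀ S, o S ≠ 0 → S.card = 2 * k) (y : ℝ)
    (hy : 0 ≤ y) : (∑ x : Fin n, if 1 ≤ mm o x then y else 1) ≤ n + 2 * k * qq o * y := by
  have h1 : (∑ x : Fin n, if 1 ≤ mm o x then y else 1) ≤ ∑ x : Fin n, (1 + (mm o x : ℝ) * y) := by
    refine Finset.sum_le_sum fun x _ => ?_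
    split_ifs with h
    · have : (1:ℝ) ≤ mm o x := by exact_mod_cast h
      nlinarith
    · have : (0:ℝ) ≤ mm o x := Nat.cast_nonneg _
      nlinarith
  refine h1.trans (le_of_eq ?_)
  rw [Finset.sum_add_distrib, ← Finset.sum_mul, ← Nat.cast_sum, sum_mm k o ho]
  simp

end Pool.Agent.N935.Kik
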