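import Pool.Agent.N935.Kik.Bnd
import Pool.Agent.N935.Kik.Lik

set_option autoImplicit false
set_option linter.unusedSectionVars false

/-!
# From trace moments to the mean top eigenvalue
-/

namespace Pool.Agent.N935.Kik

open MeasureTheory ProbabilityTheory Finset
open Pool.Agent.H320R2.LD
open scoped ENNReal

section Mat

variable {ι : Type} [Fintype ι] [DecidableEq ι]

lemma sq_dot_le (u v : ι → ℝ) (hv : dotProduct v v = 1) : (dotProduct v u) ^ 2 ≤ dotProduct u u := by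
  have h := Finset.sum_mul_sq_le_sq_mul_sq Finset.univ v u
  have e1 : ∑ i, v i ^ 2 = 1 := by rw [← hv]; simp only [dotProduct, sq]
  have e2 : ∑ i, u i ^ 2 = dotProduct u u := by simp only [dotProduct, sq]
  rw [e1, one_mul, e2] at h
  exact h

lemma dot_sym (N : Matrix ι ι ℝ) (hN : N.IsSymm) (v : ι → ℝ) :
    dotProduct (N.mulVec v) (N.mulVec v) = dotProduct v ((N * N).mulVec v) := by
  rw [← Matrix.mulVec_mulVec, Matrix.dotProduct_mulVec v N, ← Matrix.mulVec_transpose, hN.eq]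

lemma pow_iter (M : Matrix ι ι ℝ) (hM : M.IsSymm) (v : ι → ℝ) (hv : dotProduct v v = 1) (s : ℕ) :
    ((dotProduct v (M.mulVec v)) ^ (2 ^ s)) ^ 2 ≤ (dotProduct v ((M ^ (2 ^ s)).mulVec v)) ^ 2 := by
  induction s with
  | zero => simp
  | succ s ih =>
    have hN : (M ^ (2 ^ s)).IsSymm := by
      unfold Matrix.IsSymm
      rw [Matrix.transpose_pow, hM.eq]
    have h1 : (dotProduct v (M.mulVec v)) ^ (2 ^ (s + 1)) ≤
        dotProduct v ((M ^ (2 ^ (s + 1))).mulVec v) := by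
      have e1 : (2:ℕ) ^ (s + 1) = 2 ^ s * 2 := pow_succ 2 s
      rw [e1, pow_mul, pow_mul, sq (M ^ (2 ^ s)), ← dot_sym _ hN]
      exact ih.trans (sq_dot_le _ v hv)
    have h0 : 0 ≤ (dotProduct v (M.mulVec v)) ^ (2 ^ (s + 1)) := by
      rw [pow_succ 2 s, pow_mul]; positivity
    exact pow_le_pow_left₀ h0 h1 2

lemma quad_pow_le_trace (M : Matrix ι ι ℝ) (hM : M.IsSymm) (v : ι → ℝ) (hv : dotProduct v v = 1)
    (s : ℕ) :
    (dotProduct v (M.mulVec v)) ^ (2 ^ (s + 1)) ≤ Matrix.trace (M ^ (2 ^ (s + 1))) := by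
  have hN : (M ^ (2 ^ s)).IsSymm := by
    unfold Matrix.IsSymm
    rw [Matrix.transpose_pow, hM.eq]
  set N := M ^ (2 ^ s) with hNdef
  have e1 : (2:ℕ) ^ (s + 1) = 2 ^ s * 2 := pow_succ 2 s
  rw [e1, pow_mul, pow_mul, sq (M ^ (2 ^ s)), ← hNdef]
  refine (pow_iter M hM v hv s).trans ?_
  refine (sq_dot_le _ v hv).trans ?_
  have h1 : ∀ i, ((N.mulVec v) i) ^ 2 ≤ ∑ j, N i j ^ 2 := by
    intro i
    have h := Finset.sum_mul_sq_le_sq_mul_sq Finset.univ (fun j => N i j) v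
    have e2 : ∑ i, v i ^ 2 = 1 := by rw [← hv]; simp only [dotProduct, sq]
    rw [e2, mul_one] at h
    exact h
  calc dotProduct (N.mulVec v) (N.mulVec v) = ∑ i, ((N.mulVec v) i) ^ 2 := by
        simp only [dotProduct, sq]
    _ ≤ ∑ i, ∑ j, N i j ^ 2 := Finset.sum_le_sum fun i _ => h1 i
    _ = Matrix.trace (N * N) := by
        simp only [Matrix.trace, Matrix.diag, Matrix.mul_apply]
        refine Finset.sum_congr rfl fun i _ => Finset.sum_congr rfl fun j _ => ?_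
        rw [← hN.apply i j, sq]

end Mat

variable {n ℓ : ℕ}

/-- the Kikuchi matrix -/
def KM (n ℓ r : ℕ) (Z : Finset (Fin n) → ℝ) : Matrix (SI n ℓ) (SI n ℓ) ℝ :=
  Matrix.of fun I J : SI n ℓ => if (symmDiff I.1 J.1).card = r then Z (symmDiff I.1 J.1) else 0

lemma KM_symm (r : ℕ) (Z : Finset (Fin n) → ℝ) : (KM n ℓ r Z).IsSymm := by
  ext I J
  simp only [KM, Matrix.transpose_apply, Matrix.of_apply]
  rw [symmDiff_comm]

lemma KM_pow_mulVec (r : ℕ) (Z : Finset (Fin n) → ℝ) (w : SI n ℓ → ℝ) (m : ℕ) (I : SI n ℓ) :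
    ((KM n ℓ r Z) ^ m).mulVec w I = U r w m I Z := by
  induction m generalizing I with
  | zero => simp [U]
  | succ m ih =>
    rw [pow_succ', ← Matrix.mulVec_mulVec, U]
    simp only [Matrix.mulVec, dotProduct] at ih ⊢
    refine Finset.sum_congr rfl fun J _ => ?_
    rw [ih J]
    simp only [KM, Matrix.of_apply]
    split_ifs <;> simp

lemma trace_KM (r : ℕ) (Z : Finset (Fin n) → ℝ) (m : ℕ) :
    Matrix.trace ((KM n ℓ r Z) ^ m) = ∑ I : SI n ℓ, U r (fun J => if J = I then 1 else 0) m I Z := by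
  simp only [Matrix.trace, Matrix.diag]
  refine Finset.sum_congr rfl fun I _ => ?_
  rw [← KM_pow_mulVec]
  simp only [Matrix.mulVec, dotProduct]
  simp

lemma HP_zero (Z : Finset (Fin n) → ℝ) : HP (fun _ => 0) Z = 1 := by
  unfold HP
  simp [HS.he]

lemma integral_U (r : ℕ) (w : SI n ℓ → ℝ) (m : ℕ) (I : SI n ℓ) :
    ∫ Z, U r w m I Z ∂(gam (Finset (Fin n))) = T r w m I (fun _ => 0) := by
  unfold T
  simp_rw [HP_zero, one_mul]

lemma ex_zero (I : SI n ℓ) : ex I (fun _ => 0) = 0 := by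
  unfold ex mm
  simp

lemma qq_zero : qq (fun _ : Finset (Fin n) => 0) = 0 := by
  unfold qq; simp

/-- The mean trace. -/
lemma mean_trace_le (k : ℕ) (hk : 1 ≤ k) (hℓ : 1 ≤ ℓ)
    (P : ℕ) (y A Bb : ℝ) (hy : Real.exp (2 * P / ℓ) ≤ y) (hA0 : 0 < A) (hB0 : 0 < Bb)
    (hA : (ℓ.choose k : ℝ) * (n + 2 * k * P * y) ^ k ≤ A ^ 2) (hB : (ℓ:ℝ) / k ≤ Bb ^ 2) :
    ∫ Z, Matrix.trace ((KM n ℓ (2 * k) Z) ^ P) ∂(gam (Finset (Fin n))) ≤
      (Fintype.card (SI n ℓ) : ℝ) * (2 * A * Bb) ^ P := by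
  simp_rw [trace_KM]
  rw [integral_finsetSum _ fun I _ => (U_polyF _ _ _ _).integrable]
  calc _ ≤ ∑ _I : SI n ℓ, (2 * A * Bb) ^ P := by
        refine Finset.sum_le_sum fun I _ => ?_
        rw [integral_U]
        have h := (T_bound k hk hℓ (fun J => if J = I then 1 else 0)
          (fun J => by split_ifs <;> norm_num) (fun J => by split_ifs <;> norm_num)
          P y A Bb hy hA0 hB0 hA hB P le_rfl I (fun _ => 0) (fun S h => absurd rfl h)).2
          (by rw [qq_zero]; exact Nat.zero_le _)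
        rw [qq_zero, ex_zero] at h
        simp only [Nat.sub_zero, Nat.add_zero, Nat.cast_zero, mul_zero, zero_div, Real.exp_zero,
          mul_one] at h
        rw [mul_pow, mul_pow]
        exact h
    _ = _ := by
        rw [Finset.sum_const, Finset.card_univ, nsmul_eq_mul]

lemma trace_integrable (r P : ℕ) :
    Integrable (fun Z => Matrix.trace ((KM n ℓ r Z) ^ P)) (gam (Finset (Fin n))) := by
  simp_rw [trace_KM]
  exact integrable_finsetSum _ fun I _ => (U_polyF _ _ _ _).integrable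

lemma le_add_pow (t B : ℝ) (hB : 0 < B) (P : ℕ) (hP : Even P) (hP1 : 1 ≤ P) :
    t ≤ B + B * (t ^ P / B ^ P) := by
  have h0 : 0 ≤ t ^ P / B ^ P := div_nonneg (hP.pow_nonneg t) (by positivity)
  by_cases h : t ≤ B
  · nlinarith
  · push Not at h
    have h1 : 1 ≤ t / B := by rw [le_div_iff₀ hB]; linarith
    have h2 : t / B ≤ (t / B) ^ P := by
      calc t / B = (t / B) ^ 1 := (pow_one _).symm
        _ ≤ (t / B) ^ P := pow_le_pow_right₀ h1 hP1
    rw [div_pow] at h2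
    have h3 : t = B * (t / B) := by field_simp
    calc t = B * (t / B) := h3
      _ ≤ B * (t ^ P / B ^ P) := mul_le_mul_of_nonneg_left h2 hB.le
      _ ≤ _ := by linarith

/-- The mean top eigenvalue is controlled by the mean trace. -/
lemma mean_X_le (r s : ℕ) (hn : ℓ ≤ n) (B : ℝ) (hB : 0 < B) :
    ∫ Z, X n ℓ r Z ∂(gam (Finset (Fin n))) ≤
      B + B * ((∫ Z, Matrix.trace ((KM n ℓ r Z) ^ (2 ^ (s + 1))) ∂(gam (Finset (Fin n)))) /
        B ^ (2 ^ (s + 1))) := by
  classical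
  have hpt : ∀ Z, X n ℓ r Z ≤ B + B * (Matrix.trace ((KM n ℓ r Z) ^ (2 ^ (s + 1))) / B ^ (2 ^ (s + 1))) := by
    intro Z
    obtain ⟨I0, _, hI0⟩ := Finset.exists_subset_card_eq (s := (Finset.univ : Finset (Fin n)))
      (n := ℓ) (by simpa using hn)
    unfold X
    refine csSup_le ⟨_, ⟨fun I => if I = ⟨I0, hI0⟩ then 1 else 0, by simp [dotProduct], rfl⟩⟩ ?_
    rintro t ⟨v, hv, rfl⟩
    rw [← qf_eq]
    have h1 := quad_pow_le_trace (KM n ℓ r Z) (KM_symm r Z) v hv s
    have h2 := le_add_pow (dotProduct v ((KM n ℓ r Z).mulVec v)) B hB (2 ^ (s + 1))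
      (by rw [pow_succ]; exact even_two.mul_left _) Nat.one_le_two_pow
    refine h2.trans ?_
    have h3 : 0 < B ^ (2 ^ (s + 1)) := by positivity
    have h4 := div_le_div_of_nonneg_right h1 h3.le
    have h5 := mul_le_mul_of_nonneg_left h4 hB.le
    linarith
  have hi := (trace_integrable (n := n) (ℓ := ℓ) r (2 ^ (s + 1)))
  calc _ ≤ ∫ Z, (B + B * (Matrix.trace ((KM n ℓ r Z) ^ (2 ^ (s + 1))) / B ^ (2 ^ (s + 1))))
        ∂(gam (Finset (Fin n))) :=
        integral_mono (integrable_X n ℓ r) ((integrable_const B).add ((hi.div_const _).const_mul B)) hpt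
    _ = _ := by
        rw [integral_add (integrable_const B) ((hi.div_const _).const_mul B), integral_const_mul,
          integral_div]
        simp

end Pool.Agent.N935.Kik
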