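import Pool.Agent.N935.Kik.Def

set_option autoImplicit false

/-!
# The case `r = 2`: the noise part is Lipschitz with constant `2 ℓ`
-/

namespace Pool.Agent.N935.Kik

open MeasureTheory ProbabilityTheory Finset
open Pool.Agent.H320R2.LD
open scoped ENNReal

/-- `J` is obtained from `I` by replacing `a` by `b`. -/
def Rel {n ℓ : ℕ} (a b : Fin n) (I J : SI n ℓ) : Prop :=
  a ∈ I.1 ∧ b ∈ J.1 ∧ symmDiff I.1 J.1 = {a, b}

instance {n ℓ : ℕ} (a b : Fin n) (I J : SI n ℓ) : Decidable (Rel a b I J) := by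
  unfold Rel; infer_instance

lemma rel_right_unique {n ℓ : ℕ} {a b : Fin n} {I J J' : SI n ℓ} (h : Rel a b I J)
    (h' : Rel a b I J') : J = J' := by
  apply Subtype.ext
  have := h.2.2.trans h'.2.2.symm
  exact symmDiff_right_injective I.1 this

lemma rel_left_unique {n ℓ : ℕ} {a b : Fin n} {I I' J : SI n ℓ} (h : Rel a b I J)
    (h' : Rel a b I' J) : I = I' := by
  apply Subtype.ext
  have := h.2.2.trans h'.2.2.symm
  exact symmDiff_left_injective J.1 this

lemma exists_rel {n ℓ : ℕ} (I J : SI n ℓ) (h : (symmDiff I.1 J.1).card = 2) :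
    ∃ a b, Rel a b I J := by
  have h1 : (I.1 \ J.1).card = (J.1 \ I.1).card := by
    have e1 := Finset.card_sdiff_add_card_inter I.1 J.1
    have e2 := Finset.card_sdiff_add_card_inter J.1 I.1
    rw [Finset.inter_comm] at e2
    rw [I.2] at e1; rw [J.2] at e2
    omega
  have h2 : (I.1 \ J.1).card + (J.1 \ I.1).card = 2 := by
    rw [← h, symmDiff_def, Finset.sup_eq_union, Finset.card_union_of_disjoint disjoint_sdiff_sdiff]
  have h3 : (I.1 \ J.1).card = 1 := by omega
  have h4 : (J.1 \ I.1).card = 1 := by omega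
  obtain ⟨a, ha⟩ := Finset.card_eq_one.mp h3
  obtain ⟨b, hb⟩ := Finset.card_eq_one.mp h4
  refine ⟨a, b, ?_, ?_, ?_⟩
  · have : a ∈ I.1 \ J.1 := by rw [ha]; simp
    exact (Finset.mem_sdiff.mp this).1
  · have : b ∈ J.1 \ I.1 := by rw [hb]; simp
    exact (Finset.mem_sdiff.mp this).1
  · rw [symmDiff_def, Finset.sup_eq_union, ha, hb]
    rfl

/-- mass of `v²` at the subsets containing `a` -/
noncomputable def Pm {n ℓ : ℕ} (v : SI n ℓ → ℝ) (a : Fin n) : ℝ := ∑ I : SI n ℓ, if a ∈ I.1 then v I ^ 2 else 0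

lemma Pm_nonneg {n ℓ : ℕ} (v : SI n ℓ → ℝ) (a : Fin n) : 0 ≤ Pm v a :=
  Finset.sum_nonneg fun I _ => by split_ifs <;> positivity

lemma sum_Pm {n ℓ : ℕ} (v : SI n ℓ → ℝ) (hv : dotProduct v v = 1) : ∑ a, Pm v a = ℓ := by
  unfold Pm
  rw [Finset.sum_comm]
  have : ∀ I : SI n ℓ, ∑ a : Fin n, (if a ∈ I.1 then v I ^ 2 else 0) = ℓ * v I ^ 2 := by
    intro I
    rw [Finset.sum_ite_mem, Finset.univ_inter, Finset.sum_const, I.2]
    simp
  rw [Finset.sum_congr rfl fun I _ => this I, ← Finset.mul_sum, ← dp_eq, hv, mul_one]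

/-- the pair mass -/
noncomputable def Em {n ℓ : ℕ} (v : SI n ℓ → ℝ) (a b : Fin n) : ℝ :=
  ∑ I : SI n ℓ, ∑ J : SI n ℓ, if Rel a b I J then |v I| * |v J| else 0

lemma Em_sq_le {n ℓ : ℕ} (v : SI n ℓ → ℝ) (a b : Fin n) : Em v a b ^ 2 ≤ Pm v a * Pm v b := by
  have e : Em v a b = ∑ p : SI n ℓ × SI n ℓ, (if Rel a b p.1 p.2 then |v p.1| else 0) *
      (if Rel a b p.1 p.2 then |v p.2| else 0) := by
    unfold Em
    rw [Fintype.sum_prod_type]
    refine Finset.sum_congr rfl fun I _ => Finset.sum_congr rfl fun J _ => ?_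
    split_ifs <;> simp
  rw [e]
  refine (Finset.sum_mul_sq_le_sq_mul_sq _ _ _).trans ?_
  apply mul_le_mul _ _ (Finset.sum_nonneg fun _ _ => sq_nonneg _) (Pm_nonneg v a)
  · rw [Fintype.sum_prod_type]
    unfold Pm
    refine Finset.sum_le_sum fun I _ => ?_
    by_cases h : ∃ J : SI n ℓ, Rel a b I J
    · obtain ⟨J, hJ⟩ := h
      rw [Finset.sum_eq_single J]
      · rw [if_pos hJ, if_pos hJ.1, sq_abs]
      · intro J' _ hJ'
        rw [if_neg fun h => hJ' (rel_right_unique h hJ)]
        simp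
      · intro h; exact absurd (Finset.mem_univ _) h
    · push Not at h
      rw [Finset.sum_eq_zero fun J _ => by rw [if_neg (h J)]; simp]
      split_ifs <;> positivity
  · rw [Fintype.sum_prod_type, Finset.sum_comm]
    unfold Pm
    refine Finset.sum_le_sum fun J _ => ?_
    by_cases h : ∃ I : SI n ℓ, Rel a b I J
    · obtain ⟨I, hI⟩ := h
      rw [Finset.sum_eq_single I]
      · rw [if_pos hI, if_pos hI.2.1, sq_abs]
      · intro I' _ hI'
        rw [if_neg fun h => hI' (rel_left_unique h hI)]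
        simp
      · intro h; exact absurd (Finset.mem_univ _) h
    · push Not at h
      rw [Finset.sum_eq_zero fun I _ => by rw [if_neg (h I)]; simp]
      split_ifs <;> positivity

lemma sum_pairs_le {n : ℕ} (W : Finset (Fin n) → ℝ) :
    ∑ a : Fin n, ∑ b : Fin n, W {a, b} ^ 2 ≤ 2 * nsq W := by
  have h1 : ∑ a : Fin n, ∑ b : Fin n, W {a, b} ^ 2 =
      ∑ p : Fin n × Fin n, (fun q : Finset (Fin n) × Bool => W q.1 ^ 2)
        (({p.1, p.2} : Finset (Fin n)), decide (p.1 ≤ p.2)) := by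
    rw [Fintype.sum_prod_type]
  have h2 : 2 * nsq W = ∑ q : Finset (Fin n) × Bool, W q.1 ^ 2 := by
    rw [Fintype.sum_prod_type]
    unfold nsq
    rw [Finset.mul_sum]
    refine Finset.sum_congr rfl fun S _ => ?_
    simp [two_mul]
  rw [h1, h2]
  have hinj : Function.Injective (fun p : Fin n × Fin n =>
      ((({p.1, p.2} : Finset (Fin n)), decide (p.1 ≤ p.2)) : Finset (Fin n) × Bool)) := by
    rintro ⟨a, b⟩ ⟨c, d⟩ h
    simp only [Prod.mk.injEq, decide_eq_decide] at h
    obtain ⟨hs, hle⟩ := h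
    have ha : a = c ∨ a = d := by
      have : a ∈ ({c, d} : Finset (Fin n)) := by rw [← hs]; simp
      simpa using this
    have hb : b = c ∨ b = d := by
      have : b ∈ ({c, d} : Finset (Fin n)) := by rw [← hs]; simp
      simpa using this
    have hc : c = a ∨ c = b := by
      have : c ∈ ({a, b} : Finset (Fin n)) := by rw [hs]; simp
      simpa using this
    have hd : d = a ∨ d = b := by
      have : d ∈ ({a, b} : Finset (Fin n)) := by rw [hs]; simp
      simpa using this
    have key : a = c ∧ b = d := by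
      rcases ha with ha | ha
      · refine ⟨ha, ?_⟩
        rcases hb with hb | hb
        · rcases hd with hd | hd
          · rw [hb, hd, ha]
          · exact hd.symm
        · exact hb
      · rcases hb with hb | hb
        · -- a = d, b = c
          subst ha; subst hb
          by_cases hab : a ≤ b
          · have := hle.mp hab
            have e := le_antisymm hab this
            exact ⟨e, e.symm⟩
          · have h3 : ¬ (b ≤ a) := fun h => hab (hle.mpr h)
            exact absurd (le_total a b) (by tauto)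
        · subst ha
          subst hb
          rcases hc with hc | hc <;> exact ⟨hc.symm, rfl⟩
    rw [key.1, key.2]
  rw [← Finset.sum_image (s := Finset.univ) (g := fun p : Fin n × Fin n =>
      ((({p.1, p.2} : Finset (Fin n)), decide (p.1 ≤ p.2)) : Finset (Fin n) × Bool))
      (f := fun q : Finset (Fin n) × Bool => W q.1 ^ 2) (fun a _ b _ h => hinj h)]
  exact Finset.sum_le_univ_sum_of_nonneg fun q => sq_nonneg _

lemma qf_two_sq (n ℓ : ℕ) (W : Finset (Fin n) → ℝ) (v : SI n ℓ → ℝ) (hv : dotProduct v v = 1) :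
    qf n ℓ 2 W v ^ 2 ≤ 2 * nsq W * (ℓ:ℝ) ^ 2 := by
  have h1 : |qf n ℓ 2 W v| ≤ ∑ a : Fin n, ∑ b : Fin n, |W {a, b}| * Em v a b := by
    have h2 : |qf n ℓ 2 W v| ≤ ∑ I : SI n ℓ, ∑ J : SI n ℓ, ∑ a : Fin n, ∑ b : Fin n,
        (if Rel a b I J then |W {a, b}| * (|v I| * |v J|) else 0) := by
      unfold qf
      refine (Finset.abs_sum_le_sum_abs _ _).trans (Finset.sum_le_sum fun I _ => ?_)
      refine (Finset.abs_sum_le_sum_abs _ _).trans (Finset.sum_le_sum fun J _ => ?_)
      split_ifs with h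
      · obtain ⟨a, b, hab⟩ := exists_rel I J h
        have hnn : ∀ a b : Fin n, 0 ≤ (if Rel a b I J then |W {a, b}| * (|v I| * |v J|) else 0) := by
          intro a b; split_ifs <;> positivity
        calc |W (symmDiff I.1 J.1) * (v I * v J)| =
              (if Rel a b I J then |W {a, b}| * (|v I| * |v J|) else 0) := by
              rw [if_pos hab, hab.2.2, abs_mul, abs_mul]
          _ ≤ ∑ b : Fin n, (if Rel a b I J then |W {a, b}| * (|v I| * |v J|) else 0) :=
              Finset.single_le_sum (f := fun b => (if Rel a b I J then |W {a, b}| * (|v I| * |v J|) else 0))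
                (fun b _ => hnn a b) (Finset.mem_univ b)
          _ ≤ _ := Finset.single_le_sum
                (f := fun a => ∑ b : Fin n, (if Rel a b I J then |W {a, b}| * (|v I| * |v J|) else 0))
                (fun a _ => Finset.sum_nonneg fun b _ => hnn a b) (Finset.mem_univ a)
      · rw [abs_zero]
        exact Finset.sum_nonneg fun a _ => Finset.sum_nonneg fun b _ => by split_ifs <;> positivity
    refine h2.trans (le_of_eq ?_)
    calc ∑ I : SI n ℓ, ∑ J : SI n ℓ, ∑ a : Fin n, ∑ b : Fin n,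
        (if Rel a b I J then |W {a, b}| * (|v I| * |v J|) else 0)
        = ∑ I : SI n ℓ, ∑ a : Fin n, ∑ J : SI n ℓ, ∑ b : Fin n,
        (if Rel a b I J then |W {a, b}| * (|v I| * |v J|) else 0) :=
          Finset.sum_congr rfl fun I _ => Finset.sum_comm
      _ = ∑ a : Fin n, ∑ I : SI n ℓ, ∑ J : SI n ℓ, ∑ b : Fin n,
        (if Rel a b I J then |W {a, b}| * (|v I| * |v J|) else 0) := Finset.sum_comm
      _ = ∑ a : Fin n, ∑ I : SI n ℓ, ∑ b : Fin n, ∑ J : SI n ℓ,
        (if Rel a b I J then |W {a, b}| * (|v I| * |v J|) else 0) :=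
          Finset.sum_congr rfl fun a _ => Finset.sum_congr rfl fun I _ => Finset.sum_comm
      _ = ∑ a : Fin n, ∑ b : Fin n, ∑ I : SI n ℓ, ∑ J : SI n ℓ,
        (if Rel a b I J then |W {a, b}| * (|v I| * |v J|) else 0) :=
          Finset.sum_congr rfl fun a _ => Finset.sum_comm
      _ = _ := by
          refine Finset.sum_congr rfl fun a _ => Finset.sum_congr rfl fun b _ => ?_
          unfold Em
          rw [Finset.mul_sum]
          refine Finset.sum_congr rfl fun I _ => ?_
          rw [Finset.mul_sum]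
          refine Finset.sum_congr rfl fun J _ => ?_
          split_ifs <;> simp
  have h3 : (∑ a : Fin n, ∑ b : Fin n, |W {a, b}| * Em v a b) ^ 2 ≤ 2 * nsq W * (ℓ:ℝ) ^ 2 := by
    have e : ∑ a : Fin n, ∑ b : Fin n, |W {a, b}| * Em v a b =
        ∑ p : Fin n × Fin n, |W {p.1, p.2}| * Em v p.1 p.2 := by
      rw [Fintype.sum_prod_type]
    rw [e]
    refine (Finset.sum_mul_sq_le_sq_mul_sq _ _ _).trans ?_
    apply mul_le_mul _ _ (Finset.sum_nonneg fun _ _ => sq_nonneg _)
      (by have : 0 ≤ nsq W := Finset.sum_nonneg fun _ _ => sq_nonneg _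
          positivity)
    · rw [Fintype.sum_prod_type]
      simp only [sq_abs]
      exact sum_pairs_le W
    · rw [Fintype.sum_prod_type]
      calc ∑ a : Fin n, ∑ b : Fin n, Em v a b ^ 2 ≤ ∑ a : Fin n, ∑ b : Fin n, Pm v a * Pm v b :=
            Finset.sum_le_sum fun a _ => Finset.sum_le_sum fun b _ => Em_sq_le v a b
        _ = (∑ a, Pm v a) * (∑ b, Pm v b) := by rw [Finset.sum_mul_sum]
        _ = (ℓ:ℝ) ^ 2 := by rw [sum_Pm v hv]; ring
  have h0 : 0 ≤ |qf n ℓ 2 W v| := abs_nonneg _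
  calc qf n ℓ 2 W v ^ 2 = |qf n ℓ 2 W v| ^ 2 := (sq_abs _).symm
    _ ≤ (∑ a : Fin n, ∑ b : Fin n, |W {a, b}| * Em v a b) ^ 2 := by gcongr
    _ ≤ _ := h3

lemma bd_two (n ℓ : ℕ) : Bd n ℓ 2 (2 * ℓ) := by
  intro W v hv
  have h := qf_two_sq n ℓ W v hv
  have h2 : nrm W ^ 2 = nsq W := Real.sq_sqrt (Finset.sum_nonneg fun _ _ => sq_nonneg _)
  have h3 := nrm_nonneg W
  apply abs_le_of_sq_le_sq _ (by positivity)
  calc qf n ℓ 2 W v ^ 2 ≤ 2 * nsq W * (ℓ:ℝ) ^ 2 := h
    _ ≤ (2 * ℓ * nrm W) ^ 2 := by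
      rw [mul_pow, mul_pow, h2]
      have : 0 ≤ nsq W * (ℓ:ℝ) ^ 2 := by
        rw [← h2]; positivity
      nlinarith

end Pool.Agent.N935.Kik
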